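import Pool.Agent.Zk82.DN.Eng

/-! Module NormalAe for helper82: almost every sequence of digit vectors is normal. -/

set_option autoImplicit false

open MeasureTheory ProbabilityTheory Filter Topology Finset

namespace Pool.Agent.Zk99.NormalAe

section general

variable {E : Type} [MeasurableSpace E] [MeasurableSingletonClass E] (μ : Measure E)
  [IsProbabilityMeasure μ]

/-- the event that the word `w` occurs at the place `n` -/
def ev (w : ℕ → E) (k n : ℕ) : Set (ℕ → E) :=
  Set.pi (Finset.Ico n (n + k)) (fun m => {w (m - n)})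

omit [MeasurableSpace E] [MeasurableSingletonClass E] in
lemma mem_ev {w : ℕ → E} {k n : ℕ} {d : ℕ → E} : d ∈ ev w k n ↔ ∀ i < k, d (n + i) = w i := by
  unfold ev
  rw [Set.mem_pi]
  constructor
  · intro h i hi
    have h1 := h (n + i) (Finset.mem_coe.2 (Finset.mem_Ico.2 ⟨by omega, by omega⟩))
    rw [Set.mem_singleton_iff, Nat.add_sub_cancel_left] at h1
    exact h1
  · intro h m hm
    have h2 := Finset.mem_Ico.1 (Finset.mem_coe.1 hm)
    rw [Set.mem_singleton_iff, ← h (m - n) (by omega)]
    congr 1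
    omega

lemma meas_ev (w : ℕ → E) (k n : ℕ) : MeasurableSet (ev w k n) :=
  MeasurableSet.pi (Finset.countable_toSet _) fun _ _ => measurableSet_singleton _

lemma prob_ev (w : ℕ → E) (k n : ℕ) :
    Measure.infinitePi (fun _ : ℕ => μ) (ev w k n) = ∏ i ∈ range k, μ {w i} := by
  unfold ev
  rw [Measure.infinitePi_pi _ fun _ _ => measurableSet_singleton _]
  rw [Finset.prod_Ico_eq_prod_range]
  rw [Nat.add_sub_cancel_left]
  refine Finset.prod_congr rfl fun i _ => ?_
  rw [Nat.add_sub_cancel_left]

lemma prob_inter (w : ℕ → E) (k n n' : ℕ) (h : n + k ≤ n') :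
    Measure.infinitePi (fun _ : ℕ => μ) (ev w k n ∩ ev w k n') =
      Measure.infinitePi (fun _ : ℕ => μ) (ev w k n) *
        Measure.infinitePi (fun _ : ℕ => μ) (ev w k n') := by
  have hd : Disjoint (Finset.Ico n (n + k)) (Finset.Ico n' (n' + k)) := by
    rw [Finset.disjoint_left]
    intro m h1 h2
    rw [Finset.mem_Ico] at h1 h2
    omega
  have e : ev w k n ∩ ev w k n' = Set.pi ((Finset.Ico n (n + k) ∪ Finset.Ico n' (n' + k) : Finset ℕ) : Set ℕ)
      (fun m => if m < n + k then {w (m - n)} else {w (m - n')}) := by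
    ext d
    rw [Set.mem_inter_iff]
    unfold ev
    rw [Set.mem_pi, Set.mem_pi, Set.mem_pi]
    constructor
    · rintro ⟨h1, h2⟩ m hm
      rw [Finset.mem_coe, Finset.mem_union] at hm
      rcases hm with hm | hm
      · have h3 := Finset.mem_Ico.1 hm
        rw [if_pos h3.2]
        exact h1 m (Finset.mem_coe.2 hm)
      · have h3 := Finset.mem_Ico.1 hm
        rw [if_neg (by omega)]
        exact h2 m (Finset.mem_coe.2 hm)
    · intro h1
      refine ⟨fun m hm => ?_, fun m hm => ?_⟩
      · have h3 := Finset.mem_Ico.1 (Finset.mem_coe.1 hm)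
        have h4 := h1 m (Finset.mem_coe.2 (Finset.mem_union_left _ (Finset.mem_coe.1 hm)))
        rwa [if_pos h3.2] at h4
      · have h3 := Finset.mem_Ico.1 (Finset.mem_coe.1 hm)
        have h4 := h1 m (Finset.mem_coe.2 (Finset.mem_union_right _ (Finset.mem_coe.1 hm)))
        rwa [if_neg (by omega)] at h4
  rw [e, Measure.infinitePi_pi _ (fun m _ => by split_ifs <;> exact measurableSet_singleton _),
    Finset.prod_union hd]
  unfold ev
  rw [Measure.infinitePi_pi _ fun _ _ => measurableSet_singleton _,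
    Measure.infinitePi_pi _ fun _ _ => measurableSet_singleton _]
  congr 1
  · refine Finset.prod_congr rfl fun m hm => ?_
    rw [if_pos (Finset.mem_Ico.1 hm).2]
  · refine Finset.prod_congr rfl fun m hm => ?_
    rw [if_neg (by have := Finset.mem_Ico.1 hm; omega)]

variable {Ω : Type} [MeasurableSpace Ω] {P : Measure Ω} [IsProbabilityMeasure P]

lemma indep_ind {A B : Set Ω} (hA : MeasurableSet A) (hB : MeasurableSet B)
    (h : P (A ∩ B) = P A * P B) :
    IndepFun (A.indicator fun _ => (1 : ℝ)) (B.indicator fun _ => (1 : ℝ)) P := by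
  have h1 : IndepSet A B P := (indepSet_iff_measure_inter_eq_mul hA hB P).2 h
  rw [IndepFun_iff_Indep]
  have hm : ∀ A : Set Ω, MeasurableSpace.comap (A.indicator fun _ => (1 : ℝ)) inferInstance ≤
      MeasurableSpace.generateFrom {A} := by
    intro A
    have h2 : @Measurable Ω ℝ (MeasurableSpace.generateFrom {A}) _
        (A.indicator fun _ => (1 : ℝ)) := by
      apply Measurable.indicator
      · exact measurable_const
      · exact MeasurableSpace.measurableSet_generateFrom (Set.mem_singleton A)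
    exact h2.comap_le
  exact indep_of_indep_of_le_left (indep_of_indep_of_le_right h1 (hm B)) (hm A)

lemma ident_ind {A B : Set Ω} (hA : MeasurableSet A) (hB : MeasurableSet B) (h : P A = P B) :
    IdentDistrib (A.indicator fun _ => (1 : ℝ)) (B.indicator fun _ => (1 : ℝ)) P P := by
  classical
  have hmA : Measurable (A.indicator fun _ => (1 : ℝ)) := measurable_const.indicator hA
  have hmB : Measurable (B.indicator fun _ => (1 : ℝ)) := measurable_const.indicator hB
  refine ⟨hmA.aemeasurable, hmB.aemeasurable, ?_⟩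
  ext s hs
  rw [Measure.map_apply hmA hs, Measure.map_apply hmB hs]
  have hc : P Aᶜ = P Bᶜ := by
    rw [prob_compl_eq_one_sub hA, prob_compl_eq_one_sub hB, h]
  have key : ∀ C : Set Ω, (C.indicator fun _ => (1 : ℝ)) ⁻¹' s =
      (if (1 : ℝ) ∈ s then (if (0 : ℝ) ∈ s then Set.univ else C) else
        (if (0 : ℝ) ∈ s then Cᶜ else ∅)) := by
    intro C
    ext x
    rw [Set.mem_preimage]
    by_cases hx : x ∈ C
    · rw [Set.indicator_of_mem hx]
      split_ifs <;> simp_all
    · rw [Set.indicator_of_notMem hx]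
      split_ifs <;> simp_all
  rw [key A, key B]
  split_ifs
  · rfl
  · exact h
  · exact hc
  · rfl

end general

section law

variable {E : Type} [MeasurableSpace E] [MeasurableSingletonClass E] (μ : Measure E)
  [IsProbabilityMeasure μ]

lemma class_law (w : ℕ → E) (k ρ : ℕ) :
    ∀ᵐ d ∂(Measure.infinitePi fun _ : ℕ => μ),
      Tendsto (fun M : ℕ => (∑ j ∈ range M, (ev w k (ρ + k * j)).indicator (fun _ => (1 : ℝ)) d) / M)
        atTop (𝓝 (∏ i ∈ range k, μ {w i}).toReal) := by
  have h1 := strong_law_ae_real (μ := Measure.infinitePi fun _ : ℕ => μ)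
    (fun j => (ev w k (ρ + k * j)).indicator fun _ => (1 : ℝ))
    ((integrable_const (1 : ℝ)).indicator (meas_ev w k _))
    (by
      intro i j hij
      rcases Nat.lt_or_ge i j with h | h
      · refine indep_ind (meas_ev w k _) (meas_ev w k _) (prob_inter μ w k _ _ ?_)
        have : k * (i + 1) ≤ k * j := Nat.mul_le_mul_left _ h
        rw [Nat.mul_add] at this
        omega
      · have h' : j < i := lt_of_le_of_ne h (Ne.symm hij)
        refine (indep_ind (meas_ev w k _) (meas_ev w k _) (prob_inter μ w k _ _ ?_)).symm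
        have : k * (j + 1) ≤ k * i := Nat.mul_le_mul_left _ h'
        rw [Nat.mul_add] at this
        omega)
    (fun i => ident_ind (meas_ev w k _) (meas_ev w k _) (by rw [prob_ev, prob_ev]))
  have h2 : ∫ d, (ev w k (ρ + k * 0)).indicator (fun _ => (1 : ℝ)) d
      ∂(Measure.infinitePi fun _ : ℕ => μ) = (∏ i ∈ range k, μ {w i}).toReal := by
    rw [integral_indicator (meas_ev w k _), integral_const, smul_eq_mul, mul_one,
      measureReal_restrict_apply_univ, Measure.real, prob_ev]
  rw [h2] at h1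
  exact h1

end law

/-- the sum over the classes -/
lemma sum_classes (f : ℕ → ℝ) (k M : ℕ) :
    ∑ n ∈ range (k * M), f n = ∑ ρ ∈ range k, ∑ j ∈ range M, f (ρ + k * j) := by
  induction M with
  | zero => simp
  | succ M ih =>
    rw [Nat.mul_succ, Finset.sum_range_add, ih]
    simp_rw [Finset.sum_range_succ]
    rw [Finset.sum_add_distrib]
    congr 1
    exact Finset.sum_congr rfl fun ρ _ => by rw [add_comm]

/-- from the classes to all places -/
lemma from_classes {f : ℕ → ℝ} {k : ℕ} (hk : 1 ≤ k) {p : ℝ} (hf0 : ∀ n, 0 ≤ f n) (hf1 : ∀ n, f n ≤ 1)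
    (h : ∀ ρ < k, Tendsto (fun M : ℕ => (∑ j ∈ range M, f (ρ + k * j)) / M) atTop (𝓝 p)) :
    Tendsto (fun N : ℕ => (∑ n ∈ range N, f n) / N) atTop (𝓝 p) := by
  have hk0 : (0 : ℝ) < k := by exact_mod_cast hk
  have h1 : Tendsto (fun M : ℕ => (∑ n ∈ range (k * M), f n) / (k * M)) atTop (𝓝 p) := by
    have h2 : Tendsto (fun M : ℕ => (1 / (k : ℝ)) * ∑ ρ ∈ range k,
        ((∑ j ∈ range M, f (ρ + k * j)) / M)) atTop (𝓝 ((1 / (k : ℝ)) * ∑ _ρ ∈ range k, p)) :=
      (tendsto_finsetSum _ fun ρ hρ => h ρ (Finset.mem_range.1 hρ)).const_mul _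
    have h3 : (1 / (k : ℝ)) * ∑ _ρ ∈ range k, p = p := by
      rw [Finset.sum_const, card_range, nsmul_eq_mul]
      field_simp
    rw [h3] at h2
    refine h2.congr fun M => ?_
    rw [sum_classes, ← Finset.sum_div, mul_comm (k : ℝ), ← div_div, div_right_comm]
    ring
  have hdiv : Tendsto (fun N : ℕ => N / k) atTop atTop :=
    Nat.tendsto_div_const_atTop (by omega)
  have h4 := h1.comp hdiv
  -- the quotient of the lengths
  have h5 : Tendsto (fun N : ℕ => ((k : ℝ) * ((N / k : ℕ) : ℝ)) / N) atTop (𝓝 1) := by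
    have h6 : Tendsto (fun N : ℕ => 1 - (k : ℝ) / N) atTop (𝓝 (1 - 0)) :=
      tendsto_const_nhds.sub (tendsto_const_div_atTop_nhds_zero_nat _)
    rw [sub_zero] at h6
    refine tendsto_of_tendsto_of_tendsto_of_le_of_le' h6 tendsto_const_nhds ?_ ?_
    · filter_upwards [eventually_ge_atTop 1] with N hN
      have hN0 : (0 : ℝ) < N := by exact_mod_cast hN
      have h7 : N < k * (N / k) + k := by
        have := Nat.div_add_mod N k
        have := Nat.mod_lt N (by omega : k > 0)
        omega
      have h8 : (N : ℝ) < k * ((N / k : ℕ) : ℝ) + k := by exact_mod_cast h7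
      rw [le_div_iff₀ hN0, sub_mul, div_mul_cancel₀ _ hN0.ne']
      linarith
    · filter_upwards [eventually_ge_atTop 1] with N hN
      have hN0 : (0 : ℝ) < N := by exact_mod_cast hN
      rw [div_le_one hN0]
      exact_mod_cast Nat.mul_div_le N k
  have h9 : Tendsto (fun N : ℕ => (∑ n ∈ range (k * (N / k)), f n) / N) atTop (𝓝 p) := by
    have h10 := h4.mul h5
    rw [mul_one] at h10
    refine h10.congr' ?_
    filter_upwards [eventually_ge_atTop k] with N hN
    have hN0 : (0 : ℝ) < N := by exact_mod_cast (by omega : 0 < N)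
    have h11 : 0 < N / k := Nat.div_pos hN (by omega)
    have h12 : (0 : ℝ) < ((N / k : ℕ) : ℝ) := by exact_mod_cast h11
    simp only [Function.comp_apply]
    field_simp
  have h13 : Tendsto (fun N : ℕ => (k : ℝ) / N) atTop (𝓝 0) := tendsto_const_div_atTop_nhds_zero_nat _
  have h14 := h9.add h13
  rw [add_zero] at h14
  refine tendsto_of_tendsto_of_tendsto_of_le_of_le' h9 h14 ?_ ?_
  · refine Eventually.of_forall fun N => ?_
    refine div_le_div_of_nonneg_right ?_ (Nat.cast_nonneg _)
    exact Finset.sum_le_sum_of_subset_of_nonneg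
      (Finset.range_mono (Nat.mul_div_le N k)) fun n _ _ => hf0 n
  · refine Eventually.of_forall fun N => ?_
    rw [← add_div]
    refine div_le_div_of_nonneg_right ?_ (Nat.cast_nonneg _)
    obtain ⟨r, hr, hN⟩ : ∃ r ≤ k, N = k * (N / k) + r :=
      ⟨N % k, (Nat.mod_lt N (by omega)).le, (Nat.div_add_mod N k).symm⟩
    calc ∑ n ∈ range N, f n = ∑ n ∈ range (k * (N / k) + r), f n := by rw [← hN]
      _ = ∑ n ∈ range (k * (N / k)), f n + ∑ n ∈ range r, f (k * (N / k) + n) :=
          Finset.sum_range_add _ _ _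
      _ ≤ ∑ n ∈ range (k * (N / k)), f n + k := by
          have h15 : ∑ n ∈ range r, f (k * (N / k) + n) ≤ ∑ _n ∈ range r, (1 : ℝ) :=
            Finset.sum_le_sum fun n _ => hf1 _
          rw [Finset.sum_const, card_range, nsmul_eq_mul, mul_one] at h15
          have : (r : ℝ) ≤ k := by exact_mod_cast hr
          linarith

theorem ae_normal {ι : Type} [Fintype ι] [DecidableEq ι] {b : ℕ} (μ : Measure (ι → Fin b))
    [IsProbabilityMeasure μ] (hμ : ∀ a, μ {a} = ((b : ENNReal) ^ Fintype.card ι)⁻¹) :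
    ∀ᵐ d ∂(Measure.infinitePi fun _ : ℕ => μ), Pool.Agent.Zk82.DN.NormalSeq d := by
  classical
  have hall : ∀ᵐ d ∂(Measure.infinitePi fun _ : ℕ => μ), ∀ (k : ℕ) (w : Fin (k + 1) → ι → Fin b)
      (ρ : ℕ), Tendsto (fun M : ℕ => (∑ j ∈ range M,
        (ev (fun i => if h : i < k + 1 then w ⟨i, h⟩ else w 0) (k + 1)
          (ρ + (k + 1) * j)).indicator (fun _ => (1 : ℝ)) d) / M) atTop
        (𝓝 (∏ i ∈ range (k + 1), μ {(fun i => if h : i < k + 1 then w ⟨i, h⟩ else w 0) i}).toReal) := by
    rw [ae_all_iff]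
    intro k
    rw [ae_all_iff]
    intro w
    rw [ae_all_iff]
    intro ρ
    exact class_law μ _ _ _
  filter_upwards [hall] with d hd k w
  rcases k with _ | k
  · have e : ∀ N : ℕ, {n : ℕ | n < N ∧ ∀ j : Fin 0, d (n + j) = w j} = Set.Iio N := by
      intro N
      ext n
      simp
    simp_rw [e, pow_zero, div_one]
    refine tendsto_const_nhds.congr' ?_
    filter_upwards [eventually_ge_atTop 1] with N hN
    have hN0 : (N : ℝ) ≠ 0 := by exact_mod_cast (by omega : N ≠ 0)
    rw [Set.ncard_eq_toFinset_card']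
    simp [hN0]
  · obtain ⟨W, hW⟩ : ∃ W : ℕ → ι → Fin b, W = fun i => if h : i < k + 1 then w ⟨i, h⟩ else w 0 :=
      ⟨_, rfl⟩
    have hp : (∏ i ∈ range (k + 1), μ {W i}).toReal =
        1 / ((b : ℝ) ^ Fintype.card ι) ^ (k + 1) := by
      rw [Finset.prod_congr rfl fun i _ => hμ (W i), Finset.prod_const, card_range,
        ENNReal.toReal_pow, ENNReal.toReal_inv, ENNReal.toReal_pow, ENNReal.toReal_natCast]
      rw [one_div, inv_pow]
    have h3 : (∏ i ∈ range (k + 1), μ {if h : i < k + 1 then w ⟨i, h⟩ else w 0}) =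
        ∏ i ∈ range (k + 1), μ {W i} := by rw [hW]
    have h1 := hd k w
    rw [← hW, h3, hp] at h1
    have h2 := from_classes (f := fun n => (ev W (k + 1) n).indicator (fun _ => (1 : ℝ)) d)
      (k := k + 1) (by omega) (fun n => Set.indicator_nonneg (fun _ _ => zero_le_one) _)
      (fun n => Set.indicator_le_self' (fun _ _ => zero_le_one) _) (fun ρ _ => h1 ρ)
    refine h2.congr fun N => ?_
    congr 1
    have e : {n : ℕ | n < N ∧ ∀ j : Fin (k + 1), d (n + j) = w j} =
        ((range N).filter fun n => d ∈ ev W (k + 1) n : Finset ℕ) := by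
      ext n
      rw [Finset.coe_filter, Set.mem_setOf_eq, Set.mem_setOf_eq, Finset.mem_range, mem_ev]
      refine and_congr_right fun _ => ⟨fun h i hi => ?_, fun h j => ?_⟩
      · rw [hW]
        simp only [hi, dif_pos]
        exact h ⟨i, hi⟩
      · have := h j j.2
        rw [hW] at this
        simp only [j.2, dif_pos] at this
        exact this
    rw [e, Set.ncard_coe_finset, Finset.card_filter]
    push_cast
    refine Finset.sum_congr rfl fun n _ => ?_
    by_cases h : d ∈ ev W (k + 1) n
    · rw [if_pos h, Set.indicator_of_mem h]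
    · rw [if_neg h, Set.indicator_of_notMem h]

end Pool.Agent.Zk99.NormalAe
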