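import Pool.Agent.Zk72.NF.FDefs

/-! Module LIM for helper72: limits of the laws of the traces for all values of the parameter. -/

set_option autoImplicit false

namespace Pool.Agent.Zk99

open MeasureTheory Filter Topology
open Pool.Agent.Zk72.NF (S_SUB)

section

variable {X : Type} [MetricSpace X] [MeasurableSpace X] [BorelSpace X] {ι : Type}

/-- the law of a random point with finitely many values -/
noncomputable def fl (I : Finset ι) (p : ι → X) (q : ι → ℝ) : Measure X :=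
  ∑ i ∈ I, ENNReal.ofReal (q i) • Measure.dirac (p i)

omit [BorelSpace X] in
lemma fl_univ {I : Finset ι} (p : ι → X) {q : ι → ℝ} (h0 : ∀ i ∈ I, 0 ≤ q i)
    (h1 : ∑ i ∈ I, q i = 1) : fl I p q Set.univ = 1 := by
  unfold fl
  rw [Measure.finsetSum_apply]
  simp only [Measure.smul_apply, measure_univ, smul_eq_mul, mul_one]
  rw [← ENNReal.ofReal_sum_of_nonneg h0, h1, ENNReal.ofReal_one]

lemma fl_integral [SecondCountableTopology X] {I : Finset ι} (p : ι → X) {q : ι → ℝ}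
    (h0 : ∀ i ∈ I, 0 ≤ q i) (G : X → ℝ) (hG : Continuous G) :
    ∫ x, G x ∂(fl I p q) = ∑ i ∈ I, q i * G (p i) := by
  unfold fl
  rw [integral_finsetSum_measure]
  · refine Finset.sum_congr rfl fun F hF => ?_
    rw [integral_smul_measure, integral_dirac' _ _ hG.stronglyMeasurable,
      ENNReal.toReal_ofReal (h0 F hF), smul_eq_mul]
  · intro F _
    refine Integrable.smul_measure ?_ ENNReal.ofReal_ne_top
    exact integrable_dirac' hG.stronglyMeasurable (by simp)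

/-- extension of a `1`-Lipschitz function bounded by `1` -/
lemma ext_lip (K : Set X) (f : K → ℝ) (hf : LipschitzWith 1 f) (hb : ∀ x, |f x| ≤ 1) :
    ∃ g : X → ℝ, LipschitzWith 1 g ∧ (∀ x, |g x| ≤ 1) ∧ ∀ x : K, g x = f x := by
  classical
  obtain ⟨g0, hg0, hgK⟩ := LipschitzOnWith.extend_real (K := 1) (s := K)
    (f := fun y => if h : y ∈ K then f ⟨y, h⟩ else 0) (by
      refine LipschitzOnWith.of_dist_le_mul fun x hx y hy => ?_
      simp only [dif_pos hx, dif_pos hy]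
      exact hf.dist_le_mul ⟨x, hx⟩ ⟨y, hy⟩)
  refine ⟨fun x => max (-1) (min 1 (g0 x)), (hg0.const_min 1).const_max (-1), fun x => ?_,
    fun x => ?_⟩
  · rw [abs_le]
    exact ⟨le_max_left _ _, max_le (by norm_num) (min_le_left _ _)⟩
  · have h1 : g0 (x : X) = f x := by
      have := hgK x.2
      simp only [dif_pos x.2] at this
      exact this.symm
    have h2 := abs_le.1 (hb x)
    show max (-1) (min 1 (g0 x)) = f x
    rw [h1, min_eq_right h2.2, max_eq_right h2.1]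

/-- the core: finitely supported laws in a compact set with a modulus in the parameter -/
theorem core (hSUB : S_SUB) [SecondCountableTopology X] (K : Set X) (hK : IsCompact K) (x0 : K)
    (I : ℕ → Finset ι) (t : ℕ → ι → X) (q : ℕ → ℝ → ι → ℝ)
    (h1 : ∀ L : ℝ, 0 < L → ∃ n0 : ℕ, ∀ n, n0 ≤ n → ∀ a : ℝ, |a| ≤ L →
      (∀ i ∈ I n, t n i ∈ K) ∧ (∀ i ∈ I n, 0 ≤ q n a i) ∧ ∑ i ∈ I n, q n a i = 1)
    (h2 : ∀ L : ℝ, 0 < L → ∃ C : ℝ, ∃ n0 : ℕ, ∀ n, n0 ≤ n → ∀ a b : ℝ, |a| ≤ L → |b| ≤ L →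
      ∀ f : X → ℝ, LipschitzWith 1 f → (∀ x, |f x| ≤ 1) →
        |(∑ i ∈ I n, q n a i * f (t n i)) - ∑ i ∈ I n, q n b i * f (t n i)| ≤
          C * Real.sqrt |a - b|) :
    ∃ φ : ℕ → ℕ, StrictMono φ ∧ ∃ ν : ℝ → ProbabilityMeasure X,
      (∀ (a : ℝ) (f : BoundedContinuousFunction X ℝ),
        Tendsto (fun n => ∑ i ∈ I (φ n), q (φ n) a i * f (t (φ n) i)) atTop
          (𝓝 (∫ x, f x ∂(ν a : Measure X)))) ∧
      ∀ L : ℝ, 0 < L → ∃ C : ℝ, ∀ a b : ℝ, |a| ≤ L → |b| ≤ L →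
        ∀ f : X → ℝ, LipschitzWith 1 f → (∀ x, |f x| ≤ 1) →
          |(∫ x, f x ∂(ν a : Measure X)) - ∫ x, f x ∂(ν b : Measure X)| ≤
            C * Real.sqrt |a - b| := by
  classical
  have : CompactSpace K := isCompact_iff_compactSpace.1 hK
  obtain ⟨p, hp⟩ : ∃ p : ℕ → ι → K, ∀ n i, t n i ∈ K → ((p n i : K) : X) = t n i :=
    ⟨fun n i => if h : t n i ∈ K then ⟨t n i, h⟩ else x0, fun n i h => by
      show ((if h : t n i ∈ K then (⟨t n i, h⟩ : K) else x0 : K) : X) = t n i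
      rw [dif_pos h]⟩
  have hex : ∀ (n : ℕ) (a : ℝ), ∃ m : ProbabilityMeasure K, (∀ i ∈ I n, 0 ≤ q n a i) →
      ∑ i ∈ I n, q n a i = 1 → (m : Measure K) = fl (I n) (p n) (q n a) := by
    intro n a
    by_cases h : (∀ i ∈ I n, 0 ≤ q n a i) ∧ ∑ i ∈ I n, q n a i = 1
    · exact ⟨⟨fl (I n) (p n) (q n a), ⟨fl_univ _ h.1 h.2⟩⟩, fun _ _ => rfl⟩
    · exact ⟨⟨Measure.dirac x0, inferInstance⟩, fun h3 h4 => absurd ⟨h3, h4⟩ h⟩
  choose μ hμ using hex
  have hint : ∀ L : ℝ, 0 < L → ∃ n0 : ℕ, ∀ n, n0 ≤ n → ∀ a : ℝ, |a| ≤ L →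
      ∀ (g : X → ℝ), Continuous g →
        ∫ x, g x ∂(μ n a : Measure K) = ∑ i ∈ I n, q n a i * g (t n i) := by
    intro L hL
    obtain ⟨n0, hn0⟩ := h1 L hL
    refine ⟨n0, fun n hn a ha g hg => ?_⟩
    obtain ⟨h3, h4, h5⟩ := hn0 n hn a ha
    rw [hμ n a h4 h5, fl_integral (p n) h4 (fun x : K => g x) (hg.comp continuous_subtype_val)]
    refine Finset.sum_congr rfl fun i hi => ?_
    rw [hp n i (h3 i hi)]
  choose! C n1 hC using h2
  obtain ⟨φ, hφ, ν, hν1, hν2⟩ := hSUB K μ (fun L s => C L * Real.sqrt s) (by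
      intro L _
      have h : Tendsto (fun s : ℝ => C L * Real.sqrt s) (𝓝 0) (𝓝 (C L * Real.sqrt 0)) :=
        (Real.continuous_sqrt.tendsto 0).const_mul _
      rw [Real.sqrt_zero, mul_zero] at h
      exact h.mono_left nhdsWithin_le_nhds) (by
      intro L hL
      obtain ⟨n0, hn0⟩ := hint L hL
      refine ⟨max n0 (n1 L), fun n hn a b ha hb f hf hfb => ?_⟩
      obtain ⟨g, hg1, hg2, hg3⟩ := ext_lip K f hf hfb
      have h3 : ∀ c : ℝ, |c| ≤ L → ∫ x, f x ∂(μ n c : Measure K) =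
          ∑ i ∈ I n, q n c i * g (t n i) := by
        intro c hc
        rw [← hn0 n ((le_max_left _ _).trans hn) c hc g hg1.continuous]
        exact integral_congr_ae (Eventually.of_forall fun x => (hg3 x).symm)
      rw [h3 a ha, h3 b hb]
      exact hC L hL n ((le_max_right _ _).trans hn) a b ha hb g hg1 hg2)
  have hmeas : ∀ a, AEMeasurable (Subtype.val : K → X) (ν a : Measure K) :=
    fun a => measurable_subtype_coe.aemeasurable
  have hmap : ∀ (a : ℝ) (g : X → ℝ), Continuous g →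
      ∫ x, g x ∂((ν a).map (hmeas a) : Measure X) = ∫ x : K, g x ∂(ν a : Measure K) := by
    intro a g hg
    rw [ProbabilityMeasure.toMeasure_map,
      integral_map (hmeas a) hg.stronglyMeasurable.aestronglyMeasurable]
  refine ⟨φ, hφ, fun a => (ν a).map (hmeas a), fun a f => ?_, fun L hL => ⟨C L, ?_⟩⟩
  · rw [hmap a f f.continuous]
    have h3 := (ProbabilityMeasure.tendsto_iff_forall_integral_tendsto.1 (hν1 a))
      (f.compContinuous ⟨Subtype.val, continuous_subtype_val⟩)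
    obtain ⟨n0, hn0⟩ := hint (|a| + 1) (by positivity)
    refine Tendsto.congr' ?_ h3
    filter_upwards [eventually_ge_atTop n0] with n hn
    exact hn0 (φ n) (hn.trans (hφ.id_le n)) a (by linarith) f f.continuous
  · intro a b ha hb f hf hfb
    rw [hmap a f hf.continuous, hmap b f hf.continuous]
    exact hν2 L hL a b ha hb (fun x : K => f x)
      (by
        have := hf.comp (LipschitzWith.subtype_val K)
        rwa [one_mul] at this) (fun x => hfb x)

end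

section

open TopologicalSpace H974 H984N
open Pool.Agent.Zk72.NF
open Pool.Agent.Zk60.NW (trace)

lemma ind0_nonneg {S : Finset Edg} {c : ℝ} (h0 : 0 ≤ c) (h1 : c ≤ 1) (F : Finset Edg) :
    0 ≤ ind0 S (fun _ => c) F :=
  mul_nonneg (Finset.prod_nonneg fun _ _ => h0)
    (Finset.prod_nonneg fun _ _ => by linarith)

lemma ind0_sum (S : Finset Edg) (c : ℝ) : ∑ F ∈ S.powerset, ind0 S (fun _ => c) F = 1 := by
  have h := Ex_const (fun _ : Edg => c) S 1
  rw [← h]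
  unfold Ex ind0
  exact Finset.sum_congr rfl fun F _ => (mul_one _).symm

/-- S_LIM. -/
theorem t_LIM : S_LIM := by
  intro hSUB hBALL R hU δ hδ0 hδ
  obtain ⟨M, δ0, hδ0', hM⟩ := hBALL R
  have hK : IsCompact {L : NonemptyCompacts ℂ | (L : Set ℂ) ⊆ Metric.closedBall 0 M} :=
    NonemptyCompacts.isCompact_subsets_of_isCompact (isCompact_closedBall 0 M)
  have hev : ∀ ε : ℝ, 0 < ε → ∃ n0 : ℕ, ∀ n, n0 ≤ n → δ n ≤ ε := by
    intro ε hε
    exact eventually_atTop.1 ((hδ.eventually (gt_mem_nhds hε)).mono fun n hn => le_of_lt hn)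
  have hpow : ∀ L : ℝ, ∃ n0 : ℕ, ∀ n, n0 ≤ n → L * δ n ^ (3/4 : ℝ) ≤ 1/2 := by
    intro L
    have h1 : Tendsto (fun n => L * δ n ^ (3/4 : ℝ)) atTop (𝓝 (L * (0:ℝ) ^ (3/4 : ℝ))) :=
      (hδ.rpow_const (Or.inr (by norm_num))).const_mul L
    rw [Real.zero_rpow (by norm_num), mul_zero] at h1
    exact eventually_atTop.1 ((h1.eventually (gt_mem_nhds (by norm_num : (0:ℝ) < 1/2))).mono
      fun n hn => le_of_lt hn)
  refine core hSUB _ hK ⟨trace R δ0 ∅, hM δ0 hδ0' le_rfl ∅ (Finset.empty_subset _)⟩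
    (fun n => (R.dm (δ n)).edges.powerset) (fun n F => trace R (δ n) F)
    (fun n a F => ind0 (R.dm (δ n)).edges (fun _ => 1/2 + a * δ n ^ (3/4 : ℝ)) F) ?_ ?_
  · intro L hL
    obtain ⟨n1, hn1⟩ := hev δ0 hδ0'
    obtain ⟨n2, hn2⟩ := hpow L
    refine ⟨max n1 n2, fun n hn a ha => ⟨fun F hF => ?_, fun F _ => ?_, ind0_sum _ _⟩⟩
    · exact hM (δ n) (hδ0 n) (hn1 n ((le_max_left _ _).trans hn)) F (Finset.mem_powerset.1 hF)
    · have h2 := hn2 n ((le_max_right _ _).trans hn)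
      have h3 : 0 ≤ δ n ^ (3/4 : ℝ) := Real.rpow_nonneg (hδ0 n).le _
      have h4 : |a * δ n ^ (3/4 : ℝ)| ≤ 1/2 := by
        rw [abs_mul, abs_of_nonneg h3]
        exact (mul_le_mul_of_nonneg_right ha h3).trans h2
      obtain ⟨h5, h6⟩ := abs_le.1 h4
      exact ind0_nonneg (by linarith) (by linarith) F
  · intro L hL
    obtain ⟨C, δ1, _, hδ1, hC⟩ := hU L hL
    obtain ⟨n1, hn1⟩ := hev δ1 hδ1
    exact ⟨C, n1, fun n hn a b ha hb f hf hfb => hC (δ n) (hδ0 n) (hn1 n hn) a b ha hb f hf hfb⟩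

end

end Pool.Agent.Zk99
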