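import Pool.Agent.Zk72.NF.SUBDefs

/-! Module SUB for helper72: compactness of families of laws with a modulus of continuity. -/

set_option autoImplicit false

namespace Pool.Agent.Zk99

open MeasureTheory Filter Topology

section

variable {X : Type} [MetricSpace X] [CompactSpace X] [MeasurableSpace X] [BorelSpace X]

omit [CompactSpace X] [BorelSpace X] in
/-- integrals of bounded Lipschitz functions from those of `1`-Lipschitz functions bounded by `1` -/
lemma scale {g : X → ℝ} {C : ℝ} {L : NNReal} (hC : ∀ x y, dist (g x) (g y) ≤ C)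
    (hL : LipschitzWith L g) (ρ : ProbabilityMeasure X) :
    ∃ (c : ℝ) (f : X → ℝ), 0 < c ∧ LipschitzWith 1 f ∧ (∀ x, |f x| ≤ 1) ∧ ∀ x, g x = c * f x := by
  have hne : Nonempty X := by
    by_contra h
    rw [not_nonempty_iff] at h
    have h1 : (ρ : Measure X) Set.univ = 1 := measure_univ
    rw [Set.univ_eq_empty_iff.2 h, measure_empty] at h1
    exact zero_ne_one h1
  obtain ⟨x0⟩ := hne
  have hC0 : 0 ≤ C := dist_nonneg.trans (hC x0 x0)
  have hb : ∀ x, |g x| ≤ |g x0| + C := by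
    intro x
    have h1 := hC x x0
    rw [Real.dist_eq] at h1
    have h2 : |g x| ≤ |g x0| + |g x - g x0| := by
      calc |g x| = |g x0 + (g x - g x0)| := by ring_nf
        _ ≤ _ := abs_add_le _ _
    linarith
  obtain ⟨c, hc⟩ : ∃ c : ℝ, c = |g x0| + C + L + 1 := ⟨_, rfl⟩
  have hc0 : 0 < c := by
    have := abs_nonneg (g x0)
    have := L.coe_nonneg
    rw [hc]
    linarith
  refine ⟨c, fun x => g x / c, hc0, ?_, fun x => ?_, fun x => ?_⟩
  · refine LipschitzWith.of_dist_le_mul fun x y => ?_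
    rw [NNReal.coe_one, one_mul, Real.dist_eq, ← sub_div, abs_div, abs_of_pos hc0, div_le_iff₀ hc0]
    have h1 := hL.dist_le_mul x y
    rw [Real.dist_eq] at h1
    have h2 : (L : ℝ) ≤ c := by
      have := abs_nonneg (g x0)
      rw [hc]
      linarith
    calc |g x - g y| ≤ L * dist x y := h1
      _ ≤ c * dist x y := mul_le_mul_of_nonneg_right h2 dist_nonneg
      _ = dist x y * c := mul_comm _ _
  · rw [abs_div, abs_of_pos hc0, div_le_one hc0]
    have := hb x
    have := L.coe_nonneg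
    rw [hc]
    linarith
  · field_simp

omit [CompactSpace X] in
lemma conv_int {μ : ℕ → ProbabilityMeasure X} {ρ : ProbabilityMeasure X}
    (h : Tendsto μ atTop (𝓝 ρ)) {f : X → ℝ} (hf : LipschitzWith 1 f) (hb : ∀ x, |f x| ≤ 1) :
    Tendsto (fun n => ∫ x, f x ∂(μ n : Measure X)) atTop (𝓝 (∫ x, f x ∂(ρ : Measure X))) := by
  refine tendsto_iff_forall_lipschitz_integral_tendsto.1 h f ⟨2, fun x y => ?_⟩ ⟨1, hf⟩
  rw [Real.dist_eq]
  calc |f x - f y| ≤ |f x| + |f y| := abs_sub _ _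
    _ ≤ 2 := by linarith [hb x, hb y]

lemma conv_of {μ : ℕ → ProbabilityMeasure X} {ρ : ProbabilityMeasure X}
    (h : ∀ f : X → ℝ, LipschitzWith 1 f → (∀ x, |f x| ≤ 1) →
      Tendsto (fun n => ∫ x, f x ∂(μ n : Measure X)) atTop (𝓝 (∫ x, f x ∂(ρ : Measure X)))) :
    Tendsto μ atTop (𝓝 ρ) := by
  refine tendsto_iff_forall_lipschitz_integral_tendsto.2 fun g hC hL => ?_
  obtain ⟨C, hC⟩ := hC
  obtain ⟨L, hL⟩ := hL
  obtain ⟨c, f, -, h1, h2, h3⟩ := scale hC hL ρ
  simp_rw [h3, integral_const_mul]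
  exact (h f h1 h2).const_mul c

end

theorem t_SUB : Pool.Agent.Zk72.NF.S_SUB := by
  intro X _ _ _ _ μ w hw hmod
  -- the diagonal sequence for the rational values
  obtain ⟨r, φ, hφ, hr⟩ := CompactSpace.tendsto_subseq
    (fun n => fun q : ℚ => μ n (q : ℝ))
  have hq : ∀ q : ℚ, Tendsto (fun n => μ (φ n) (q : ℝ)) atTop (𝓝 (r q)) := fun q =>
    (tendsto_pi_nhds.1 hr) q
  have hcauchy : ∀ (a : ℝ) (f : X → ℝ), LipschitzWith 1 f → (∀ x, |f x| ≤ 1) →
      CauchySeq fun n => ∫ x, f x ∂(μ (φ n) a : Measure X) := by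
    intro a f hf hb
    rw [Metric.cauchySeq_iff']
    intro ε hε
    obtain ⟨L, hL⟩ : ∃ L : ℝ, L = |a| + 1 := ⟨_, rfl⟩
    have hL0 : 0 < L := by
      have := abs_nonneg a
      linarith
    have h1 := (hw L hL0).eventually_lt_const (by linarith : (0 : ℝ) < ε / 3)
    rw [eventually_nhdsWithin_iff] at h1
    obtain ⟨δ, hδ, h2⟩ := Metric.eventually_nhds_iff.1 h1
    obtain ⟨q, hq1, hq2⟩ := exists_rat_btwn (show a < a + min δ 1 by
      have : 0 < min δ 1 := lt_min hδ one_pos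
      linarith)
    have h3 : |a - q| < min δ 1 := by
      rw [abs_sub_comm, abs_of_pos (by linarith)]
      linarith
    have h4 : w L |a - q| < ε / 3 := by
      refine h2 ?_ (Set.mem_Ici.2 (abs_nonneg _))
      rw [Real.dist_eq, sub_zero, abs_abs]
      exact h3.trans_le (min_le_left _ _)
    have h5 : |(q : ℝ)| ≤ L := by
      have h6 : |(q : ℝ)| ≤ |a| + |a - q| := by
        calc |(q : ℝ)| = |a - (a - q)| := by ring_nf
          _ ≤ _ := abs_sub _ _
      have := min_le_right δ 1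
      linarith
    obtain ⟨n0, hn0⟩ := hmod L hL0
    have hc := (conv_int (hq q) hf hb).cauchySeq
    rw [Metric.cauchySeq_iff'] at hc
    obtain ⟨N, hN⟩ := hc (ε / 6) (by linarith)
    have hN' : ∀ n ≥ N, ∀ m ≥ N, |(∫ x, f x ∂(μ (φ n) q : Measure X)) -
        ∫ x, f x ∂(μ (φ m) q : Measure X)| < ε / 3 := by
      intro n hn m hm
      have h7 := hN n hn
      have h8 := hN m hm
      rw [Real.dist_eq, abs_lt] at h7 h8
      rw [abs_lt]
      constructor <;> linarith [h7.1, h7.2, h8.1, h8.2]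
    refine ⟨max N n0, fun n hn => ?_⟩
    have hnN : N ≤ n := (le_max_left _ _).trans hn
    have hnn : n0 ≤ φ n := ((le_max_right _ _).trans hn).trans hφ.le_apply
    have hmm : n0 ≤ φ (max N n0) := (le_max_right _ _).trans hφ.le_apply
    have hLa : |a| ≤ L := by linarith
    have h9 := hn0 (φ n) hnn a q hLa h5 f hf hb
    have h10 := hn0 (φ (max N n0)) hmm a q hLa h5 f hf hb
    have h11 := hN' n hnN (max N n0) (le_max_left _ _)
    rw [Real.dist_eq, abs_lt]
    rw [abs_le] at h9 h10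
    rw [abs_lt] at h11
    constructor <;> linarith [h9.1, h9.2, h10.1, h10.2, h11.1, h11.2]
  have hlim : ∀ a : ℝ, ∃ ρ : ProbabilityMeasure X, Tendsto (fun n => μ (φ n) a) atTop (𝓝 ρ) := by
    intro a
    obtain ⟨ρ, ψ, hψ, hρ⟩ := CompactSpace.tendsto_subseq (fun n => μ (φ n) a)
    refine ⟨ρ, conv_of fun f hf hb => ?_⟩
    exact tendsto_nhds_of_cauchySeq_of_subseq (hcauchy a f hf hb) hψ.tendsto_atTop
      (conv_int hρ hf hb)
  choose ν hν using hlim
  refine ⟨φ, hφ, ν, hν, fun L hL a b ha hb f hf hf1 => ?_⟩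
  obtain ⟨n0, hn0⟩ := hmod L hL
  refine le_of_tendsto (((conv_int (hν a) hf hf1).sub (conv_int (hν b) hf hf1)).abs) ?_
  filter_upwards [eventually_ge_atTop n0] with n hn
  exact hn0 (φ n) (hn.trans hφ.le_apply) a b ha hb f hf hf1

end Pool.Agent.Zk99
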