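import Pool.Agent.Zk23.AKDefs
import Pool.Agent.Zk23.AKDefs3

/-! Module M3 for helper23: slopes and progressions. -/

set_option autoImplicit false

namespace Pool.Agent.Zk99.AKM3

open Pool.Agent.Zk23.AKDefs Pool.Agent.Zk23.AKAP

lemma card_le {α β γ : Type} [DecidableEq β] [DecidableEq γ] [Inhabited β] (A : Finset α)
    (f : α → β) (g : α → γ) (h : ∀ a ∈ A, ∀ b ∈ A, g a = g b → f a = f b) :
    (A.image f).card ≤ (A.image g).card := by
  classical
  let F : γ → β := fun c => if h : ∃ a ∈ A, g a = c then f h.choose else default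
  have h1 : A.image f ⊆ (A.image g).image F := by
    intro b hb
    obtain ⟨a, ha, rfl⟩ := Finset.mem_image.1 hb
    refine Finset.mem_image.2 ⟨g a, Finset.mem_image_of_mem g ha, ?_⟩
    have hex : ∃ a' ∈ A, g a' = g a := ⟨a, ha, rfl⟩
    show (if h : ∃ a' ∈ A, g a' = g a then f h.choose else default) = f a
    rw [dif_pos hex]
    exact h _ hex.choose_spec.1 _ ha hex.choose_spec.2
  exact (Finset.card_le_card h1).trans Finset.card_image_le

/-- common denominators -/
lemma common (S : Finset ℚ) : ∃ (N c : ℕ), 1 ≤ N ∧ ∀ r ∈ S, ∃ j : ℕ, j < 2 * c + 1 ∧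
    (j : ℚ) = c + N * r := by
  classical
  let N : ℕ := ∏ r ∈ S, r.den
  have hN : 0 < N := Finset.prod_pos fun (r : ℚ) _ => r.pos
  have hz : ∀ r ∈ S, ∃ z : ℤ, (z : ℚ) = N * r := by
    intro r hr
    obtain ⟨t, ht⟩ := Finset.dvd_prod_of_mem (fun r : ℚ => r.den) hr
    refine ⟨t * r.num, ?_⟩
    have h1 : (N : ℚ) = r.den * t := by
      have : N = r.den * t := ht
      exact_mod_cast this
    rw [h1]
    push_cast
    have h2 : (r.den : ℚ) * r = r.num := by
      rw [mul_comm]
      exact Rat.mul_den_eq_num r
    calc (t : ℚ) * r.num = t * (r.den * r) := by rw [h2]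
      _ = r.den * t * r := by ring
  choose! z hz using hz
  refine ⟨N, ∑ r ∈ S, (z r).natAbs, hN, fun r hr => ?_⟩
  have h1 : (z r).natAbs ≤ ∑ r ∈ S, (z r).natAbs :=
    Finset.single_le_sum (f := fun r => (z r).natAbs) (fun _ _ => Nat.zero_le _) hr
  set c := ∑ r ∈ S, (z r).natAbs
  have h2 : 0 ≤ (c : ℤ) + z r := by omega
  refine ⟨((c : ℤ) + z r).toNat, by omega, ?_⟩
  have h3 : ((((c : ℤ) + z r).toNat : ℤ) : ℚ) = (((c : ℤ) + z r : ℤ) : ℚ) := by
    rw [Int.toNat_of_nonneg h2]
  push_cast at h3
  rw [← hz r hr]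
  exact_mod_cast h3

theorem bound_iff (κ : ℝ) (hκ : 0 ≤ κ) :
    (∃ S : Finset ℚ, (-1 : ℚ) ∉ S ∧ Bound S κ) ↔ ∃ k : ℕ, APBound k κ := by
  classical
  constructor
  · rintro ⟨S, hS, hB⟩
    obtain ⟨N, c, hN, hj⟩ := common (S.image fun r => 1 / (1 + r))
    refine ⟨2 * c + 1, fun A => ?_⟩
    have hN0 : (N : ℤ) ≠ 0 := by omega
    let A' : Finset (ℤ × ℤ) := A.image fun p => (p.1 + c * p.2 + N * p.2, p.1 + c * p.2)
    set s := (Finset.range (2 * c + 1)).sup fun j => (A.image fun p => p.1 + (j : ℤ) * p.2).card
      with hs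
    have h1 : (A.image Prod.snd).card ≤ (A'.image (pr (some (-1)))).card := by
      rw [Finset.image_image]
      refine card_le A _ _ fun a _ b _ hab => ?_
      simp only [Function.comp_apply, pr] at hab
      push_cast at hab
      have h2 : (N : ℚ) * a.2 = N * b.2 := by linarith
      have h3 : (N : ℚ) ≠ 0 := by exact_mod_cast hN0
      have h4 : (a.2 : ℚ) = b.2 := mul_left_cancel₀ h3 h2
      exact_mod_cast h4
    have h2 : big S A' ≤ s := by
      refine max_le ?_ (Finset.sup_le fun r hr => ?_)
      · rw [Finset.image_image]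
        refine le_trans ?_ (Finset.le_sup (f := fun j : ℕ => (A.image fun p => p.1 + (j : ℤ) * p.2).card)
          (Finset.mem_range.2 (by omega : c < 2 * c + 1)))
        refine card_le A _ _ fun a _ b _ hab => ?_
        simp only [Function.comp_apply, pr]
        rw [hab]
      · rw [Finset.image_image]
        obtain ⟨j, hj1, hj2⟩ := hj _ (Finset.mem_image_of_mem _ hr)
        refine le_trans ?_ (Finset.le_sup (f := fun j : ℕ => (A.image fun p => p.1 + (j : ℤ) * p.2).card)
          (Finset.mem_range.2 hj1))
        have hr1 : 1 + r ≠ 0 := by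
          intro h
          apply hS
          have : r = -1 := by linarith
          rwa [this] at hr
        have key : ∀ p : ℤ × ℤ, pr (some r) (p.1 + c * p.2 + N * p.2, p.1 + c * p.2) =
            (1 + r) * ((p.1 + (j : ℤ) * p.2 : ℤ) : ℚ) := by
          intro p
          simp only [pr]
          push_cast
          rw [hj2]
          field_simp
          ring
        refine card_le A _ _ fun a _ b _ hab => ?_
        simp only [Function.comp_apply]
        rw [key, key, hab]
    calc ((A.image Prod.snd).card : ℝ) ≤ ((A'.image (pr (some (-1)))).card : ℝ) := by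
          exact_mod_cast h1
      _ ≤ (big S A' : ℝ) ^ κ := hB A'
      _ ≤ (s : ℝ) ^ κ := Real.rpow_le_rpow (Nat.cast_nonneg _) (by exact_mod_cast h2) hκ
  · rintro ⟨k, hk⟩
    refine ⟨((Finset.range k).filter fun j => 1 ≤ j).image fun j : ℕ => 1 / (j : ℚ) - 1, ?_, ?_⟩
    · intro h
      obtain ⟨j, hj, hj2⟩ := Finset.mem_image.1 h
      have hj1 : 1 ≤ j := (Finset.mem_filter.1 hj).2
      have hj0 : (0 : ℚ) < j := by exact_mod_cast hj1
      have : 0 < 1 / (j : ℚ) := by positivity
      linarith
    · intro A
      set S := ((Finset.range k).filter fun j => 1 ≤ j).image fun j : ℕ => 1 / (j : ℚ) - 1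
      let A0 : Finset (ℤ × ℤ) := A.image fun p => (p.2, p.1 - p.2)
      have h1 : (A.image (pr (some (-1)))).card ≤ (A0.image Prod.snd).card := by
        rw [Finset.image_image]
        refine card_le A _ _ fun a _ b _ hab => ?_
        simp only [Function.comp_apply] at hab
        have h2 : ((a.1 - a.2 : ℤ) : ℚ) = ((b.1 - b.2 : ℤ) : ℚ) := by rw [hab]
        push_cast at h2
        simp only [pr]
        linarith
      have h2 : ((Finset.range k).sup fun j => (A0.image fun p => p.1 + (j : ℤ) * p.2).card) ≤
          big S A := by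
        refine Finset.sup_le fun j hj => ?_
        rw [Finset.image_image]
        rcases Nat.eq_zero_or_pos j with rfl | hj1
        · refine le_trans ?_ (le_max_left _ _)
          refine card_le A _ _ fun a _ b _ hab => ?_
          simp only [pr] at hab
          have h3 : a.2 = b.2 := by exact_mod_cast hab
          simp [h3]
        · have hr : 1 / (j : ℚ) - 1 ∈ S :=
            Finset.mem_image_of_mem _ (Finset.mem_filter.2 ⟨hj, hj1⟩)
          refine le_trans ?_ (le_trans (Finset.le_sup
            (f := fun r => (A.image (pr (some r))).card) hr) (le_max_right _ _))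
          refine card_le A _ _ fun a _ b _ hab => ?_
          simp only [pr] at hab
          simp only [Function.comp_apply]
          have hj0 : (j : ℚ) ≠ 0 := by
            have : (0 : ℚ) < j := by exact_mod_cast hj1
            exact this.ne'
          have h3 : ((a.2 + (j : ℤ) * (a.1 - a.2) : ℤ) : ℚ) =
              ((b.2 + (j : ℤ) * (b.1 - b.2) : ℤ) : ℚ) := by
            push_cast
            field_simp at hab
            linarith
          exact_mod_cast h3
      calc ((A.image (pr (some (-1)))).card : ℝ) ≤ ((A0.image Prod.snd).card : ℝ) := by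
            exact_mod_cast h1
        _ ≤ _ := hk A0
        _ ≤ (big S A : ℝ) ^ κ :=
            Real.rpow_le_rpow (Nat.cast_nonneg _) (by exact_mod_cast h2) hκ

end Pool.Agent.Zk99.AKM3
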