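import Pool.Agent.Zk99.GcdS

/-! Module for helper41: Cauchy-Schwarz for images, and a sum over pairs. -/

set_option autoImplicit false

namespace Pool.Agent.Zk99

theorem cs_image {α β : Type*} [DecidableEq α] [DecidableEq β] (A : Finset α) (f : α → β) :
    ((A.card : ℝ)) ^ 2 ≤ ((A.image f).card : ℝ) *
      (((A ×ˢ A).filter (fun z => f z.1 = f z.2)).card : ℝ) := by
  have h1 : (A.card : ℝ) = ∑ b ∈ A.image f, ((A.filter fun a => f a = b).card : ℝ) := by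
    exact_mod_cast Finset.card_eq_sum_card_image f A
  have h2 : ((((A ×ˢ A).filter (fun z => f z.1 = f z.2)).card : ℕ) : ℝ) =
      ∑ b ∈ A.image f, ((A.filter fun a => f a = b).card : ℝ) ^ 2 := by
    rw [Finset.card_eq_sum_card_fiberwise (f := fun z : α × α => f z.1) (t := A.image f)]
    · push_cast
      refine Finset.sum_congr rfl fun b _ => ?_
      have h3 : ((A ×ˢ A).filter (fun z => f z.1 = f z.2)).filter (fun z => f z.1 = b) =
          (A.filter fun a => f a = b) ×ˢ (A.filter fun a => f a = b) := by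
        ext z
        simp only [Finset.mem_filter, Finset.mem_product]
        constructor
        · rintro ⟨⟨⟨h4, h5⟩, h6⟩, h7⟩
          exact ⟨⟨h4, h7⟩, h5, h6 ▸ h7⟩
        · rintro ⟨⟨h4, h7⟩, h5, h8⟩
          exact ⟨⟨⟨h4, h5⟩, h7.trans h8.symm⟩, h7⟩
      rw [h3, Finset.card_product]
      push_cast
      ring
    · intro z hz
      have hz' := Finset.mem_filter.1 (Finset.mem_coe.1 hz)
      exact Finset.mem_coe.2 (Finset.mem_image_of_mem f (Finset.mem_product.1 hz'.1).1)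
  rw [h2, h1]
  exact sq_sum_le_card_mul_sum_sq

theorem uv_sum (K : ℕ) (hK : 1 ≤ K) :
    ∑ u ∈ Finset.Icc 1 K, ∑ v ∈ Finset.Icc 1 (3*K),
      ((K : ℝ) / u) * (K * ((Nat.gcd u v : ℕ) : ℝ) / v + 1) ≤
      4 * (K : ℝ) ^ 2 * (1 + Real.log (3*K)) ^ 3 := by
  have hK0 : (1 : ℝ) ≤ K := by exact_mod_cast hK
  obtain ⟨L, hL⟩ : ∃ L : ℝ, L = 1 + Real.log (3 * K) := ⟨_, rfl⟩
  have hL1 : 1 ≤ L := by
    have : 0 ≤ Real.log (3 * K) := Real.log_nonneg (by linarith)
    linarith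
  have hL3 : L ≤ L ^ 3 := by
    calc L = L ^ 1 := (pow_one L).symm
      _ ≤ L ^ 3 := pow_le_pow_right₀ hL1 (by norm_num)
  have e : ∀ u v : ℕ, ((K : ℝ) / u) * (K * ((Nat.gcd u v : ℕ) : ℝ) / v + 1) =
      (K : ℝ) ^ 2 * (((Nat.gcd u v : ℕ) : ℝ) / ((u : ℝ) * v)) + K * (1 / (u : ℝ)) := by
    intro u v
    rw [mul_add, mul_one, div_mul_div_comm]
    ring
  simp_rw [e, Finset.sum_add_distrib]
  have h1 : ∑ u ∈ Finset.Icc 1 K, ∑ v ∈ Finset.Icc 1 (3*K),
      (K : ℝ) ^ 2 * (((Nat.gcd u v : ℕ) : ℝ) / ((u : ℝ) * v)) ≤ (K : ℝ) ^ 2 * L ^ 3 := by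
    simp_rw [← Finset.mul_sum]
    refine mul_le_mul_of_nonneg_left ?_ (by positivity)
    have h2 := gcd_sum (3 * K) (by omega)
    push_cast at h2
    rw [← hL] at h2
    refine le_trans ?_ h2
    refine Finset.sum_le_sum_of_subset_of_nonneg (Finset.Icc_subset_Icc_right (by omega))
      fun u _ _ => Finset.sum_nonneg fun v _ => by positivity
  have h2 : ∑ u ∈ Finset.Icc 1 K, ∑ _v ∈ Finset.Icc 1 (3*K), (K : ℝ) * (1 / (u : ℝ)) ≤
      3 * (K : ℝ) ^ 2 * L ^ 3 := by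
    have h3 := harm_le K
    have h4 : Real.log K ≤ Real.log (3 * K) := Real.log_le_log (by linarith) (by linarith)
    have h5 : ∑ u ∈ Finset.Icc 1 K, (1 : ℝ) / (u : ℝ) ≤ L ^ 3 := by linarith
    simp_rw [Finset.sum_const, Nat.card_Icc, nsmul_eq_mul]
    have h6 : ∀ u : ℕ, ((3 * K + 1 - 1 : ℕ) : ℝ) * ((K : ℝ) * (1 / (u : ℝ))) =
        3 * (K : ℝ) ^ 2 * (1 / (u : ℝ)) := by
      intro u
      rw [Nat.add_sub_cancel]
      push_cast
      ring
    simp_rw [h6]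
    rw [← Finset.mul_sum]
    exact mul_le_mul_of_nonneg_left h5 (by positivity)
  rw [← hL]
  linarith

end Pool.Agent.Zk99
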