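import Pool.Agent.Zk55.RF.Word

set_option autoImplicit false

/-!
Lines near a vertex which pass close to another unfolded vertex: the measure of their directions.
-/

namespace Pool.Agent.Zk99.RF

open Complex Set MeasureTheory Filter Topology Pool.Agent.W780.PG Pool.Agent.W780.BB
  Pool.Agent.TH578.BE Pool.Agent.K3h17.BK Pool.Agent.Zk55.CF Pool.Agent.Zk55.RF

open scoped Real ComplexConjugate

variable {n : ℕ} {p : Fin (n + 3) → ℂ}

/-! ### Measure -/

theorem sum_abs {ι : Type*} [Countable ι] (S : ι → Set ℝ) (φ ρ : ι → ℝ) {K c0 lo hi : ℝ}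
    (hK : 0 ≤ K) (hc : 0 < c0)
    (hS : ∀ i, S i ⊆ Icc (φ i - K * ρ i) (φ i + K * ρ i))
    (hJ : ∀ i, Icc (φ i - c0 * ρ i) (φ i + c0 * ρ i) ⊆ Icc lo hi)
    (hdis : Pairwise fun i i' => Disjoint (Icc (φ i - c0 * ρ i) (φ i + c0 * ρ i))
      (Icc (φ i' - c0 * ρ i') (φ i' + c0 * ρ i'))) :
    volume (⋃ i, S i) ≤ ENNReal.ofReal (K / c0 * (hi - lo)) := by
  have h1 : volume (⋃ i, S i) ≤ ∑' i, volume (S i) := measure_iUnion_le _
  have h2 : ∀ i, volume (S i) ≤ ENNReal.ofReal (K / c0) *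
      volume (Icc (φ i - c0 * ρ i) (φ i + c0 * ρ i)) := by
    intro i
    refine (measure_mono (hS i)).trans ?_
    rw [Real.volume_Icc, Real.volume_Icc, ← ENNReal.ofReal_mul (by positivity)]
    refine ENNReal.ofReal_le_ofReal (le_of_eq ?_)
    field_simp
    ring
  calc volume (⋃ i, S i) ≤ ∑' i, volume (S i) := h1
    _ ≤ ∑' i, ENNReal.ofReal (K / c0) * volume (Icc (φ i - c0 * ρ i) (φ i + c0 * ρ i)) :=
      ENNReal.tsum_le_tsum h2
    _ = ENNReal.ofReal (K / c0) * ∑' i, volume (Icc (φ i - c0 * ρ i) (φ i + c0 * ρ i)) :=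
      ENNReal.tsum_mul_left
    _ = ENNReal.ofReal (K / c0) * volume (⋃ i, Icc (φ i - c0 * ρ i) (φ i + c0 * ρ i)) := by
      rw [measure_iUnion hdis fun i => measurableSet_Icc]
    _ ≤ ENNReal.ofReal (K / c0) * volume (Icc lo hi) := by
      gcongr
      exact iUnion_subset hJ
    _ = ENNReal.ofReal (K / c0 * (hi - lo)) := by
      rw [Real.volume_Icc, ← ENNReal.ofReal_mul (by positivity)]

/-! ### Offsets -/

/-- The coordinates of `D` along the direction `φ`. -/
theorem re_im_norm (φ : ℝ) (D : ℂ) :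
    (conj (dir φ) * D).re ^ 2 + (conj (dir φ) * D).im ^ 2 = ‖D‖ ^ 2 := by
  have h1 : ‖conj (dir φ) * D‖ = ‖D‖ := by
    rw [norm_mul, Complex.norm_conj, nd, one_mul]
  rw [← h1, ← Complex.normSq_eq_norm_sq, Complex.normSq_apply]
  ring

theorem off_lip (φ φ' : ℝ) (D : ℂ) :
    |(conj (dir φ') * D).im - (conj (dir φ) * D).im| ≤ ‖D‖ * |φ' - φ| := by
  have h1 : (conj (dir φ') * D).im - (conj (dir φ) * D).im = (conj (dir φ' - dir φ) * D).im := by
    rw [map_sub, sub_mul, Complex.sub_im]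
  have h2 : ‖dir φ' - dir φ‖ ≤ |φ' - φ| := by
    have e : dir φ' - dir φ = dir φ * (exp (I * ((φ' - φ : ℝ) : ℂ)) - 1) := by
      unfold dir
      rw [mul_sub, ← Complex.exp_add, mul_one]
      congr 2
      push_cast
      ring
    rw [e, norm_mul, nd, one_mul]
    have := Real.norm_exp_I_mul_ofReal_sub_one_le (x := φ' - φ)
    simpa using this
  rw [h1]
  calc |(conj (dir φ' - dir φ) * D).im| ≤ ‖conj (dir φ' - dir φ) * D‖ := abs_im_le_norm _
    _ = ‖dir φ' - dir φ‖ * ‖D‖ := by rw [norm_mul, Complex.norm_conj]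
    _ ≤ |φ' - φ| * ‖D‖ := by gcongr
    _ = ‖D‖ * |φ' - φ| := mul_comm _ _

/-- The words of a line in terms of the unfolded end points of the sides. -/
theorem RW_iff_off (hp : IsConvexPolygon p) (w : List (Fin (n + 3))) : ∀ x : ℝ × ℝ, RW p w x ↔
    ∀ u i u', w = u ++ i :: u' → (-1) ^ u.length * ph x (uf p u (p i)) < 0 ∧
      0 < (-1) ^ u.length * ph x (uf p u (p (i + 1))) := by
  obtain ⟨hr1, -⟩ := Pool.Agent.W347.BB.ref n p hp
  intro x
  constructor
  · rintro h u i u' rfl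
    rw [RW_append] at h
    obtain ⟨-, h1, h2, -⟩ := h
    rw [ph_fw hr1] at h1 h2
    exact ⟨h1, h2⟩
  · revert x
    induction w with
    | nil => intro x _; trivial
    | cons i w ih =>
      intro x h
      have h0 := h [] i w rfl
      simp only [List.length_nil, pow_zero, one_mul, uf] at h0
      refine ⟨h0.1, h0.2, ih _ fun u k u' hu => ?_⟩
      have h1 := h (i :: u) k u' (by rw [hu]; rfl)
      rw [List.length_cons, pow_succ, uf, uf] at h1
      have e : ∀ z, ph (fl p i x) z = - ph x (rf p i z) := by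
        intro z
        have := ph_fl (p := p) i x (rf p i z)
        rwa [hr1] at this
      rw [e, e]
      constructor
      · linarith [h1.1]
      · linarith [h1.2]

theorem uf_norm (hp : IsConvexPolygon p) (w : List (Fin (n + 3))) (z z' : ℂ) :
    ‖uf p w z - uf p w z'‖ = ‖z - z'‖ := by
  obtain ⟨-, -, -, -, -, -, hfu, hfn, -⟩ := Pool.Agent.W347.BB.ref n p hp
  have h := hfn w (uf p w z) (uf p w z')
  rw [(hfu w z).1, (hfu w z').1] at h
  exact h.symm

/-- The side function in coordinates along a direction. -/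
theorem sf_coord (i : Fin (n + 3)) (v z : ℂ) (φ : ℝ) : sf p i z = sf p i v +
    ‖p (i + 1) - p i‖ * ((conj (dir φ) * (z - v)).re * Real.sin (φ - tau p i) +
      (conj (dir φ) * (z - v)).im * Real.cos (φ - tau p i)) := by
  have h1 : p (i + 1) - p i = (‖p (i + 1) - p i‖ : ℂ) * dir (tau p i) := by
    unfold dir tau
    exact (Complex.norm_mul_exp_arg_mul_I _).symm
  have h2 : sf p i z - sf p i v = (conj (p (i + 1) - p i) * (z - v)).im := by
    unfold sf lft
    rw [← Complex.sub_im, ← mul_sub]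
    congr 2
    ring
  have h3 : z - v = dir φ * (conj (dir φ) * (z - v)) := by
    rw [← mul_assoc, mul_comm (dir φ), conj_dir_mul, one_mul]
  have h4 : conj (p (i + 1) - p i) * (z - v) = (‖p (i + 1) - p i‖ : ℂ) *
      (dir (φ - tau p i) * (conj (dir φ) * (z - v))) := by
    conv_lhs => rw [h3, h1]
    rw [map_mul, Complex.conj_ofReal, dir_conj (tau p i), mul_assoc]
    congr 1
    rw [← mul_assoc, dir_mul]
    congr 2
    ring
  have h5 : (dir (φ - tau p i)).re = Real.cos (φ - tau p i) := by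
    unfold dir
    rw [Complex.exp_ofReal_mul_I_re]
  have h5' : (dir (φ - tau p i)).im = Real.sin (φ - tau p i) := by
    unfold dir
    rw [Complex.exp_ofReal_mul_I_im]
  have h6 : sf p i z - sf p i v = ‖p (i + 1) - p i‖ *
      ((conj (dir φ) * (z - v)).re * Real.sin (φ - tau p i) +
      (conj (dir φ) * (z - v)).im * Real.cos (φ - tau p i)) := by
    rw [h2, h4, Complex.im_ofReal_mul, Complex.mul_im, h5, h5']
    ring
  linarith

/-- Constants of the vertex. -/
structure Cst (p : Fin (n + 3) → ℂ) (j : Fin (n + 3)) (a c d σ Dm : ℝ) : Prop where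
  d0 : 0 < d
  σ0 : 0 < σ
  σ1 : σ ≤ 1
  Dm0 : 0 ≤ Dm
  far : ∀ i, i ≠ j → i + 1 ≠ j → d * ‖p (i + 1) - p i‖ ≤ sf p i (p j)
  sin : ∀ φ ∈ Icc a c, σ ≤ Real.sin (φ - tau p j)
  diam : ∀ y ∈ convexHull ℝ (range p), ∀ z ∈ convexHull ℝ (range p), ‖y - z‖ ≤ Dm
  lt : c - a < π

theorem cst (hp : IsConvexPolygon p) (j : Fin (n + 3)) {a c : ℝ} (hac : a < c)
    (hout : Icc a c ⊆ Out p j) : ∃ d σ Dm : ℝ, Cst p j a c d σ Dm := by
  -- the distance
  have h1 : ∃ d : ℝ, 0 < d ∧ ∀ i, i ≠ j → i + 1 ≠ j → d * ‖p (i + 1) - p i‖ ≤ sf p i (p j) := by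
    have h2 : ∀ i, ∃ d : ℝ, 0 < d ∧ (i ≠ j → i + 1 ≠ j → d * ‖p (i + 1) - p i‖ ≤ sf p i (p j)) := by
      intro i
      by_cases h : i ≠ j ∧ i + 1 ≠ j
      · have h3 : 0 < sf p i (p j) := hp.pos i j h.1.symm h.2.symm
        have h4 := len_pos hp i
        refine ⟨sf p i (p j) / ‖p (i + 1) - p i‖, by positivity, fun _ _ => ?_⟩
        rw [div_mul_cancel₀ _ h4.ne']
      · exact ⟨1, one_pos, fun h1 h2 => absurd ⟨h1, h2⟩ h⟩
    choose d hd hd' using h2
    refine ⟨Finset.univ.inf' Finset.univ_nonempty d, ?_, fun i h1 h2 => ?_⟩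
    · rw [Finset.lt_inf'_iff]
      exact fun i _ => hd i
    · refine le_trans ?_ (hd' i h1 h2)
      gcongr
      exact Finset.inf'_le _ (Finset.mem_univ i)
  obtain ⟨d, hd, hd'⟩ := h1
  have h2 : ∃ σ : ℝ, 0 < σ ∧ σ ≤ 1 ∧ ∀ φ ∈ Icc a c, σ ≤ Real.sin (φ - tau p j) := by
    obtain ⟨φ0, h0, hmin⟩ := isCompact_Icc.exists_isMinOn (nonempty_Icc.2 hac.le)
      (f := fun φ => Real.sin (φ - tau p j)) (by fun_prop)
    exact ⟨_, (hout h0).1, Real.sin_le_one _, fun φ hφ => hmin hφ⟩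
  obtain ⟨σ, hσ, hσ1, hσ'⟩ := h2
  have h3 : Bornology.IsBounded (convexHull ℝ (range p)) :=
    (isBounded_convexHull.2 (finite_range p).isBounded)
  obtain ⟨R, hR⟩ := h3.exists_norm_le
  have hR0 : 0 ≤ R := (norm_nonneg _).trans (hR _ (subset_convexHull ℝ _ (mem_range_self j)))
  refine ⟨d, σ, 2 * R, hd, hσ, hσ1, by positivity, hd', hσ', fun y hy z hz => ?_, ?_⟩
  · have := norm_sub_le y z
    linarith [hR y hy, hR z hz]
  · by_contra hcon
    push Not at hcon
    have h4 := (hout (left_mem_Icc.2 hac.le)).1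
    have h5 := (hout (show a + π ∈ Icc a c from ⟨by linarith [Real.pi_pos], by linarith⟩)).1
    rw [show a + π - tau p j = a - tau p j + π by ring, Real.sin_add_pi] at h5
    linarith

theorem mem_hull (hp : IsConvexPolygon p) {y : ℂ} : (∀ i, 0 ≤ sf p i y) ↔ y ∈ convexHull ℝ (range p) := by
  rw [← (Pool.Agent.W975.PG.hull Pool.Agent.W174.PG.basic n p hp).1]
  rfl

theorem side_closed (hp : IsConvexPolygon p) {i : Fin (n + 3)} {Y : ℂ}
    (hY : Y ∈ openSegment ℝ (p i) (p (i + 1))) : ∀ k, 0 ≤ sf p k Y := by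
  intro k
  by_cases h : k = i
  · rw [h, side_zero hp hY]
  · exact (side_pos hp hY h).le

theorem vert_closed (hp : IsConvexPolygon p) (k : Fin (n + 3)) : ∀ i, 0 ≤ sf p i (p k) :=
  fun i => Pool.Agent.W174.PG.l_nonneg hp i k

/-- The first side crossed by a line near the vertex is far from the vertex. -/
theorem first_cross (hp : IsConvexPolygon p) {j : Fin (n + 3)} {a c d σ Dm : ℝ}
    (hC : Cst p j a c d σ Dm) {i0 : Fin (n + 3)} {w : List (Fin (n + 3))} {r φ s : ℝ}
    (hφ : φ ∈ Icc a c) (hr : 0 < r) (hr1 : r < d * σ / 2) (hAs : φ ∈ As p (p j) (i0 :: w) r)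
    (hs : |s| ≤ r) : ∃ Y, (∀ k, 0 ≤ sf p k Y) ∧ ph (lb (p j) φ s) Y = 0 ∧
      d / 2 ≤ tt (lb (p j) φ s) Y - tt (lb (p j) φ s) (p j) := by
  have hx := RW_of_As hAs hs
  obtain ⟨b1, b2, -⟩ := hx
  obtain ⟨Y, hY, hY0, -⟩ := exit_pt hp b1 b2
  refine ⟨Y, side_closed hp hY, hY0, ?_⟩
  -- the side does not contain the vertex
  have hne1 : i0 ≠ j := by
    rintro rfl
    have h1 := hAs.2.1
    rw [ph_lb, sub_self, mul_zero, Complex.zero_im] at h1
    linarith
  have hne2 : i0 + 1 ≠ j := by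
    intro h
    have h1 := hAs.1.2.1
    rw [h, ph_lb, sub_self, mul_zero, Complex.zero_im] at h1
    linarith
  have hd := hC.d0
  have hσ := hC.σ0
  have hrd : r < d / 2 := by
    have := mul_le_mul_of_nonneg_left hC.σ1 hd.le
    linarith
  set t := tt (lb (p j) φ s) Y - tt (lb (p j) φ s) (p j) with ht
  have hre : (conj (dir φ) * (Y - p j)).re = t := by
    rw [ht]
    unfold tt lb
    simp only
    rw [mul_sub, Complex.sub_re]
  have him : (conj (dir φ) * (Y - p j)).im = s := by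
    rw [ph_lb] at hY0
    linarith
  have e1 := sf_coord (p := p) i0 (p j) Y φ
  have e2 := sf_coord (p := p) j (p j) Y φ
  rw [hre, him, side_zero hp hY] at e1
  rw [hre, him] at e2
  have hsj : sf p j (p j) = 0 := Pool.Agent.W174.PG.lft_left _ _
  rw [hsj, zero_add] at e2
  have hfar := hC.far i0 hne1 hne2
  have hlen := len_pos hp i0
  have hlenj := len_pos hp j
  -- |t| is large
  have h1 : d ≤ |t| + |s| := by
    have h2 : d ≤ -(t * Real.sin (φ - tau p i0) + s * Real.cos (φ - tau p i0)) := by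
      have h3 : d * ‖p (i0 + 1) - p i0‖ ≤
          -(t * Real.sin (φ - tau p i0) + s * Real.cos (φ - tau p i0)) * ‖p (i0 + 1) - p i0‖ := by
        linarith
      exact le_of_mul_le_mul_right h3 hlen
    have h4 : |t * Real.sin (φ - tau p i0)| ≤ |t| := by
      rw [abs_mul]
      exact mul_le_of_le_one_right (abs_nonneg _) (Real.abs_sin_le_one _)
    have h5 : |s * Real.cos (φ - tau p i0)| ≤ |s| := by
      rw [abs_mul]
      exact mul_le_of_le_one_right (abs_nonneg _) (Real.abs_cos_le_one _)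
    have h6 := neg_abs_le (t * Real.sin (φ - tau p i0))
    have h7 := neg_abs_le (s * Real.cos (φ - tau p i0))
    linarith
  by_contra hcon
  push Not at hcon
  -- t is not very negative
  have h2 : 0 ≤ t * Real.sin (φ - tau p j) + s * Real.cos (φ - tau p j) := by
    have h3 : 0 ≤ ‖p (j + 1) - p j‖ * (t * Real.sin (φ - tau p j) + s * Real.cos (φ - tau p j)) := by
      rw [← e2]
      exact side_closed hp hY j
    exact nonneg_of_mul_nonneg_right h3 hlenj
  have h5 : s * Real.cos (φ - tau p j) ≤ |s| := by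
    refine (le_abs_self _).trans ?_
    rw [abs_mul]
    exact mul_le_of_le_one_right (abs_nonneg _) (Real.abs_cos_le_one _)
  have h6 : t < 0 := by
    by_contra h7
    push Not at h7
    rw [abs_of_nonneg h7] at h1
    linarith
  rw [abs_of_neg h6] at h1
  have h7 : d / 2 ≤ -t := by linarith
  have h8 : d / 2 * σ ≤ -t * Real.sin (φ - tau p j) :=
    mul_le_mul h7 (hC.sin φ hφ) hσ.le (by linarith)
  linarith

/-- The unfolded vertex near the line. -/
theorem far_vertex (hp : IsConvexPolygon p) {j : Fin (n + 3)} {a c d σ Dm : ℝ}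
    (hC : Cst p j a c d σ Dm) {w : List (Fin (n + 3))} (hw : w ≠ []) {r φ : ℝ}
    (hφ : φ ∈ Icc a c) (hr : 0 < r) (hr1 : r < d * σ / 2) (hAs : φ ∈ As p (p j) w r)
    {k : Fin (n + 3)} (hs : |(conj (dir φ) * (uf p w (p k) - p j)).im| ≤ r) :
    d / 2 ≤ (conj (dir φ) * (uf p w (p k) - p j)).re ∧
      ∀ u i u', w = u ++ i :: u' → ∀ E, (E = uf p u (p i) ∨ E = uf p u (p (i + 1))) →
        ‖E - p j‖ ≤ ‖uf p w (p k) - p j‖ + r + Dm := by
  obtain ⟨hr1', -⟩ := Pool.Agent.W347.BB.ref n p hp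
  set s := (conj (dir φ) * (uf p w (p k) - p j)).im with hsdef
  set x := lb (p j) φ s with hx
  have hxU : ph x (uf p w (p k)) = 0 := by rw [hx, ph_lb, ← hsdef, sub_self]
  have hRW : RW p w x := RW_of_As hAs hs
  have hk0 : ph (fw p w x) (p k) = 0 := by rw [ph_fw hr1', hxU, mul_zero]
  have htt : ∀ z, (conj (dir φ) * (z - p j)).re = tt x z - tt x (p j) := by
    intro z
    rw [hx]
    unfold tt lb
    simp only
    rw [mul_sub, Complex.sub_re]
  obtain ⟨i0, w', hw'⟩ : ∃ i0 w', w = i0 :: w' := by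
    cases w with
    | nil => exact absurd rfl hw
    | cons i w => exact ⟨i, w, rfl⟩
  obtain ⟨Y, hYc, hY0, hYt⟩ := first_cross hp hC hφ hr hr1 (hw' ▸ hAs) hs
  rw [← hx] at hY0 hYt
  have h1 := ord_pt hp w hw x Y (p k) (RW_WS w x hRW) hY0 hYc (vert_closed hp k) hk0
  refine ⟨by rw [htt]; linarith, ?_⟩
  rintro u i u' rfl E hE
  have hRW' := hRW
  rw [RW_append] at hRW'
  obtain ⟨hRu, hRi⟩ := hRW'
  obtain ⟨b1, b2, b3⟩ := hRi
  obtain ⟨P, hP, hP0, -⟩ := exit_pt hp b1 b2
  have hPc := side_closed hp hP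
  have hQ0 : ph x (uf p u P) = 0 := by
    have h := hP0
    rw [ph_fw hr1'] at h
    rcases mul_eq_zero.1 h with h | h
    · exact absurd h (pow_ne_zero _ (by norm_num))
    · exact h
  -- lower bound
  have hlow : 0 ≤ tt x (uf p u P) - tt x (p j) := by
    by_cases hu : u = []
    · subst hu
      have e : i = i0 := by
        simp only [List.nil_append, List.cons.injEq] at hw'
        exact hw'.1
      subst e
      obtain ⟨Y', hY', hY'0, -, -, -⟩ := exit_pt hp hRW.1 hRW.2.1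
      obtain ⟨Y2, hY2c, hY20, hY2t⟩ := first_cross hp hC hφ hr hr1 (w := u') (i0 := i) hAs hs
      rw [← hx] at hY20 hY2t
      have h5 := (exit_pt hp b1 b2)
      obtain ⟨P', hP', hP'0, hP'1, hP'2, hP'3⟩ := h5
      have h6 : tt x Y2 ≤ tt x P' := hP'2 Y2 hY20 (hY2c i)
      have h7 : tt x P' ≤ tt x P := hP'3 P hP0 (side_zero hp hP).le
      have e3 : uf p [] P = P := rfl
      rw [e3]
      linarith [hC.d0]
    · have h5 := ord_pt hp u hu x Y P (RW_WS u x hRu) hY0 hYc hPc hP0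
      linarith [hC.d0]
  -- upper bound
  have hup : tt x (uf p u P) ≤ tt x (uf p (u ++ i :: u') (p k)) := by
    have h5 := ord_pt hp (i :: u') (by simp) (fw p u x) P (p k) (RW_WS _ _ ⟨b1, b2, b3⟩) hP0 hPc
      (vert_closed hp k) (by rw [← fw_append]; exact hk0)
    have h6 := tt_fw hr1' u x (uf p (i :: u') (p k)) P
    rw [uf_append]
    linarith
  -- the distances
  have hEP : ‖E - uf p u P‖ ≤ Dm := by
    rcases hE with rfl | rfl
    · rw [uf_norm hp]
      exact hC.diam _ (subset_convexHull ℝ _ (mem_range_self _)) _ ((mem_hull hp).1 hPc)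
    · rw [uf_norm hp]
      exact hC.diam _ (subset_convexHull ℝ _ (mem_range_self _)) _ ((mem_hull hp).1 hPc)
  have hPv : ‖uf p u P - p j‖ ≤ ‖uf p (u ++ i :: u') (p k) - p j‖ + r := by
    have h5 : ‖uf p u P - p j‖ = ‖conj (dir φ) * (uf p u P - p j)‖ := by
      rw [norm_mul, Complex.norm_conj, nd, one_mul]
    have h6 : (conj (dir φ) * (uf p u P - p j)).im = s := by
      have := hQ0
      rw [hx, ph_lb] at this
      linarith
    have h7 := Complex.norm_le_abs_re_add_abs_im (conj (dir φ) * (uf p u P - p j))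
    rw [h6, htt, abs_of_nonneg hlow] at h7
    have h8 : tt x (uf p (u ++ i :: u') (p k)) - tt x (p j) ≤ ‖uf p (u ++ i :: u') (p k) - p j‖ := by
      rw [← htt]
      refine (Complex.re_le_norm _).trans ?_
      rw [norm_mul, Complex.norm_conj, nd, one_mul]
    rw [h5]
    linarith
  calc ‖E - p j‖ = ‖(E - uf p u P) + (uf p u P - p j)‖ := by congr 1; ring
    _ ≤ ‖E - uf p u P‖ + ‖uf p u P - p j‖ := norm_add_le _ _
    _ ≤ Dm + (‖uf p (u ++ i :: u') (p k) - p j‖ + r) := add_le_add hEP hPv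
    _ = _ := by ring

/-- Two directions of nearly the same point are close. -/
theorem angle_close {D : ℂ} {φ φ0 q e : ℝ} (hφ : |φ - φ0| < π) (h1 : |(conj (dir φ) * D).im| ≤ q)
    (h2 : |(conj (dir φ0) * D).im| ≤ q) (h3 : e ≤ (conj (dir φ) * D).re)
    (h4 : e ≤ (conj (dir φ0) * D).re) (hq : q < e) : |φ - φ0| ≤ π * (q / ‖D‖) := by
  have hq0 : 0 ≤ q := (abs_nonneg _).trans h1
  have he : 0 < e := hq0.trans_lt hq
  set A := conj (dir φ) * D with hA
  set B := conj (dir φ0) * D with hB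
  have hAn : ‖A‖ = ‖D‖ := by rw [hA, norm_mul, Complex.norm_conj, nd, one_mul]
  have hBn : ‖B‖ = ‖D‖ := by rw [hB, norm_mul, Complex.norm_conj, nd, one_mul]
  have hT : 0 < ‖D‖ := by
    rw [← hAn]
    exact (he.trans_le h3).trans_le (Complex.re_le_norm A)
  have hAB : conj A * B = ((‖D‖ ^ 2 : ℝ) : ℂ) * dir (φ - φ0) := by
    have e1 : conj D * D = ((‖D‖ ^ 2 : ℝ) : ℂ) := by
      rw [mul_comm, Complex.mul_conj, Complex.normSq_eq_norm_sq]
    have e2 : dir φ * conj (dir φ0) = dir (φ - φ0) := by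
      rw [dir_conj, dir_mul, sub_eq_add_neg]
    rw [hA, hB, map_mul, Complex.conj_conj, ← e1, ← e2]
    ring
  have hre : ‖D‖ ^ 2 * Real.cos (φ - φ0) = A.re * B.re + A.im * B.im := by
    have h := congrArg Complex.re hAB
    rw [Complex.re_ofReal_mul, Complex.mul_re, Complex.conj_re, Complex.conj_im] at h
    unfold dir at h
    rw [Complex.exp_ofReal_mul_I_re] at h
    linarith
  have him : ‖D‖ ^ 2 * Real.sin (φ - φ0) = A.re * B.im - A.im * B.re := by
    have h := congrArg Complex.im hAB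
    rw [Complex.im_ofReal_mul, Complex.mul_im, Complex.conj_re, Complex.conj_im] at h
    unfold dir at h
    rw [Complex.exp_ofReal_mul_I_im] at h
    linarith
  have hcos : 0 < Real.cos (φ - φ0) := by
    have h5 : e * e ≤ A.re * B.re := mul_le_mul h3 h4 he.le (he.le.trans h3)
    have h6 : |A.im * B.im| ≤ q * q := by
      rw [abs_mul]
      exact mul_le_mul h1 h2 (abs_nonneg _) hq0
    have h7 : q * q < e * e := mul_self_lt_mul_self hq0 hq
    have h8 : 0 < ‖D‖ ^ 2 * Real.cos (φ - φ0) := by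
      rw [hre]
      linarith [(abs_le.1 h6).1]
    exact (mul_pos_iff_of_pos_left (show 0 < ‖D‖ ^ 2 by positivity)).1 h8
  have hsin : |Real.sin (φ - φ0)| ≤ 2 * (q / ‖D‖) := by
    have h5 : |A.re * B.im| ≤ ‖D‖ * q := by
      rw [abs_mul]
      exact mul_le_mul ((Complex.abs_re_le_norm A).trans hAn.le) h2 (abs_nonneg _) hT.le
    have h6 : |A.im * B.re| ≤ q * ‖D‖ := by
      rw [abs_mul]
      exact mul_le_mul h1 ((Complex.abs_re_le_norm B).trans hBn.le) (abs_nonneg _) hq0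
    have h7 : ‖D‖ ^ 2 * |Real.sin (φ - φ0)| ≤ 2 * (‖D‖ * q) := by
      rw [← abs_of_pos (show 0 < ‖D‖ ^ 2 by positivity), ← abs_mul, him]
      refine (abs_sub _ _).trans ?_
      linarith
    rw [show 2 * (q / ‖D‖) = 2 * q / ‖D‖ by ring, le_div_iff₀ hT]
    have h8 : ‖D‖ * (|Real.sin (φ - φ0)| * ‖D‖) ≤ ‖D‖ * (2 * q) := by
      calc ‖D‖ * (|Real.sin (φ - φ0)| * ‖D‖) = ‖D‖ ^ 2 * |Real.sin (φ - φ0)| := by ring
        _ ≤ 2 * (‖D‖ * q) := h7
        _ = _ := by ring
    exact le_of_mul_le_mul_left h8 hT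
  have hhalf : |φ - φ0| ≤ π / 2 := by
    by_contra hcon
    push Not at hcon
    have h5 := Real.cos_nonpos_of_pi_div_two_le_of_le hcon.le
      (show |φ - φ0| ≤ π + π / 2 by linarith [Real.pi_pos])
    rw [Real.cos_abs] at h5
    linarith
  have h5 := Real.mul_le_sin (abs_nonneg _) hhalf
  have h6 : Real.sin |φ - φ0| ≤ |Real.sin (φ - φ0)| := by
    rcases abs_cases (φ - φ0) with ⟨h, -⟩ | ⟨h, -⟩
    · rw [h]; exact le_abs_self _
    · rw [h, Real.sin_neg]; exact neg_le_abs _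
  have h7 : 2 / π * |φ - φ0| ≤ 2 * (q / ‖D‖) := h5.trans (h6.trans hsin)
  have hpi := Real.pi_pos
  have h8 : |φ - φ0| = π / 2 * (2 / π * |φ - φ0|) := by field_simp
  rw [h8]
  calc π / 2 * (2 / π * |φ - φ0|) ≤ π / 2 * (2 * (q / ‖D‖)) := by gcongr
    _ = _ := by ring

/-- Words do not change under small rotations. -/
theorem As_stab (hp : IsConvexPolygon p) {v : ℂ} {w : List (Fin (n + 3))} {r φ φ' : ℝ} (hr : 0 < r)
    (h : φ ∈ As p v w r)
    (hE : ∀ u i u', w = u ++ i :: u' → ∀ E, (E = uf p u (p i) ∨ E = uf p u (p (i + 1))) →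
        ‖E - v‖ * |φ' - φ| ≤ r / 2) : φ' ∈ As p v w (r / 4) := by
  have key : ∀ s : ℝ, |s| ≤ r / 4 → RW p w (lb v φ' s) := by
    intro s hs
    rw [RW_iff_off hp]
    intro u i u' hu
    have h1 := (RW_iff_off hp w (lb v φ r)).1 h.1 u i u' hu
    have h2 := (RW_iff_off hp w (lb v φ (-r))).1 h.2 u i u' hu
    have h3 := (off_lip φ φ' (uf p u (p i) - v)).trans (hE u i u' hu _ (Or.inl rfl))
    have h4 := (off_lip φ φ' (uf p u (p (i + 1)) - v)).trans (hE u i u' hu _ (Or.inr rfl))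
    rw [ph_lb, ph_lb] at h1 h2
    rw [ph_lb, ph_lb]
    have h5 := abs_le.1 h3
    have h6 := abs_le.1 h4
    have h7 := abs_le.1 hs
    rcases neg_one_pow_eq_or ℝ u.length with e | e
    · rw [e] at h1 h2 ⊢
      constructor <;> linarith [h1.1, h1.2, h2.1, h2.2, h5.1, h5.2, h6.1, h6.2, h7.1, h7.2]
    · rw [e] at h1 h2 ⊢
      constructor <;> linarith [h1.1, h1.2, h2.1, h2.2, h5.1, h5.2, h6.1, h6.2, h7.1, h7.2]
  exact ⟨key _ (by rw [abs_of_pos (by positivity)]), key _ (by rw [abs_neg, abs_of_pos (by positivity)])⟩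

/-- The word of a line near a vertex is determined by the index of the unfolded vertex near it. -/
theorem word_uniq (hp : IsConvexPolygon p) {v : ℂ} {w w' : List (Fin (n + 3))} (hw : w ≠ [])
    (hw' : w' ≠ []) {r φ : ℝ} {k : Fin (n + 3)} (h : φ ∈ As p v w r) (h' : φ ∈ As p v w' r)
    (hU : |(conj (dir φ) * (uf p w (p k) - v)).im| ≤ r)
    (hU' : |(conj (dir φ) * (uf p w' (p k) - v)).im| ≤ r) : w = w' := by
  have key : ∀ w w' : List (Fin (n + 3)), w ≠ [] → w.length ≤ w'.length → φ ∈ As p v w r →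
      φ ∈ As p v w' r → |(conj (dir φ) * (uf p w (p k) - v)).im| ≤ r → w = w' := by
    intro w w' hw hl h h' hU
    have e : w' = w'.take w.length ++ w'.drop w.length := (List.take_append_drop _ _).symm
    have h1 := RW_of_As h' hU
    have h2 := RW_of_As h hU
    have h1' := h1
    rw [e] at h1
    have h3 : w = w'.take w.length := RW_uniq hp _ _ _ (by rw [List.length_take]; omega) h2
      (RW_prefix h1)
    by_cases hd : w'.drop w.length = []
    · rw [hd, List.append_nil] at e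
      rw [e]
      exact h3
    · exfalso
      rw [← h3] at h1
      refine no_vertex hp hw hd h1 k ?_
      rw [ph_lb, sub_self]
  rcases le_total w.length w'.length with hl | hl
  · exact key w w' hw hl h h' hU
  · exact (key w' w hw' hl h' h hU').symm

/-- The directions at the vertex `j` for which a line close to the vertex passes through an unfolded
vertex have small measure. -/
theorem small_offset (hp : IsConvexPolygon p) (j : Fin (n + 3)) {a c : ℝ} (hac : a < c)
    (hout : Icc a c ⊆ Out p j) : ∃ C r0 : ℝ, 0 < C ∧ 0 < r0 ∧ ∀ r κ : ℝ, 0 < r → r < r0 → 0 < κ →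
      κ ≤ 1 / 8 → volume (⋃ w ∈ {w : List (Fin (n + 3)) | w ≠ []}, ⋃ k : Fin (n + 3),
        {φ : ℝ | φ ∈ Icc a c ∧ φ ∈ As p (p j) w r ∧
          |ph (lb (p j) φ 0) (uf p w (p k))| ≤ κ * r}) ≤ ENNReal.ofReal (C * κ) := by
  obtain ⟨d, σ, Dm, hC⟩ := cst hp j hac hout
  have hd := hC.d0
  have hσ := hC.σ0
  have hDm := hC.Dm0
  have hpi := Real.pi_pos
  set C' : ℝ := 2 + 2 * Dm / d with hC'
  have hC'2 : 2 ≤ C' := by
    have : 0 ≤ 2 * Dm / d := by positivity
    linarith
  set c0 : ℝ := 1 / (8 * C') with hc0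
  have hc0p : 0 < c0 := by positivity
  have hc0C : C' * c0 = 1 / 8 := by rw [hc0]; field_simp
  have hc0s : c0 ≤ 1 / 16 := by
    rw [hc0]
    exact one_div_le_one_div_of_le (by norm_num) (by linarith)
  have hdσ : d * σ / 2 ≤ d / 2 := by
    have := mul_le_mul_of_nonneg_left hC.σ1 hd.le
    linarith
  refine ⟨(n + 3 : ℕ) * (π / c0 * (c - a + 2)), d * σ / 2, ?_, by positivity, ?_⟩
  · have : 0 < c - a + 2 := by linarith
    positivity
  intro r κ hr hr1 hκ hκ1
  set S : List (Fin (n + 3)) → Fin (n + 3) → Set ℝ := fun w k =>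
    {φ : ℝ | φ ∈ Icc a c ∧ φ ∈ As p (p j) w r ∧ |ph (lb (p j) φ 0) (uf p w (p k))| ≤ κ * r} with hS
  have hκr : κ * r ≤ r / 8 := by
    have := mul_le_mul_of_nonneg_right hκ1 hr.le
    linarith
  have hoff : ∀ φ z, ph (lb (p j) φ 0) z = (conj (dir φ) * (z - p j)).im := fun φ z => by
    rw [ph_lb, sub_zero]
  have hk : ∀ k, volume (⋃ w : {w : List (Fin (n + 3)) // w ≠ [] ∧ (S w k).Nonempty}, S w.1 k) ≤
      ENNReal.ofReal (π * κ / c0 * ((c + 1) - (a - 1))) := by
    intro k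
    have hne : ∀ w : {w : List (Fin (n + 3)) // w ≠ [] ∧ (S w k).Nonempty}, (S w.1 k).Nonempty :=
      fun w => w.2.2
    choose φ hφ using hne
    have hfar : ∀ (w : List (Fin (n + 3))) (ψ : ℝ), w ≠ [] → ψ ∈ S w k →
        d / 2 ≤ (conj (dir ψ) * (uf p w (p k) - p j)).re ∧
      ∀ u i u', w = u ++ i :: u' → ∀ E, (E = uf p u (p i) ∨ E = uf p u (p (i + 1))) →
        ‖E - p j‖ ≤ ‖uf p w (p k) - p j‖ + r + Dm := by
      intro w ψ hw hψ
      obtain ⟨h1, h2, h3⟩ := hψ
      rw [hoff] at h3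
      exact far_vertex hp hC hw h1 hr hr1 h2 (h3.trans (by linarith))
    set T : {w : List (Fin (n + 3)) // w ≠ [] ∧ (S w k).Nonempty} → ℝ :=
      fun w => ‖uf p w.1 (p k) - p j‖ with hT
    have hT0 : ∀ w, d / 2 ≤ T w := by
      intro w
      have h1 := (hfar w.1 (φ w) w.2.1 (hφ w)).1
      refine h1.trans ((Complex.re_le_norm _).trans ?_)
      rw [norm_mul, Complex.norm_conj, nd, one_mul]
    have hTp : ∀ w, 0 < T w := fun w => lt_of_lt_of_le (by positivity) (hT0 w)
    -- the small intervals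
    have hsmall : ∀ w, ∀ ψ ∈ Icc (φ w - c0 * (r / T w)) (φ w + c0 * (r / T w)),
        ψ ∈ As p (p j) w.1 (r / 4) ∧ |(conj (dir ψ) * (uf p w.1 (p k) - p j)).im| ≤ r / 4 := by
      intro w ψ hψ
      have hdist : |ψ - φ w| ≤ c0 * (r / T w) := by
        rw [abs_le]
        constructor <;> linarith [hψ.1, hψ.2]
      obtain ⟨g1, g2, g3⟩ := hφ w
      rw [hoff] at g3
      constructor
      · refine As_stab hp hr g2 fun u i u' hu E hE => ?_
        have h1 := (hfar w.1 (φ w) w.2.1 (hφ w)).2 u i u' hu E hE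
        have h2 : ‖uf p w.1 (p k) - p j‖ + r + Dm ≤ C' * T w := by
          have h3 := hT0 w
          have h4 : Dm ≤ 2 * Dm / d * T w := by
            have : 2 * Dm / d * (d / 2) ≤ 2 * Dm / d * T w := by gcongr
            have e : 2 * Dm / d * (d / 2) = Dm := by field_simp
            linarith
          have e2 : ‖uf p w.1 (p k) - p j‖ = T w := rfl
          rw [e2, hC', add_mul]
          linarith
        calc ‖E - p j‖ * |ψ - φ w| ≤ (C' * T w) * (c0 * (r / T w)) :=
              mul_le_mul (h1.trans h2) hdist (abs_nonneg _)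
                (mul_nonneg (by linarith) (hTp w).le)
          _ = (C' * c0) * r := by
            have := (hTp w).ne'
            field_simp
          _ ≤ r / 2 := by rw [hc0C]; linarith
      · have h1 := off_lip (φ w) ψ (uf p w.1 (p k) - p j)
        have h2 : ‖uf p w.1 (p k) - p j‖ * |ψ - φ w| ≤ c0 * r := by
          calc ‖uf p w.1 (p k) - p j‖ * |ψ - φ w| ≤ T w * (c0 * (r / T w)) := by
                gcongr
            _ = c0 * r := by
              have := (hTp w).ne'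
              field_simp
        have h3 : c0 * r ≤ 1 / 16 * r := by gcongr
        have h4 := abs_le.1 (h1.trans h2)
        have h5 := abs_le.1 g3
        rw [abs_le]
        constructor <;> linarith [h4.1, h4.2, h5.1, h5.2]
    have h := sum_abs (fun w : {w : List (Fin (n + 3)) // w ≠ [] ∧ (S w k).Nonempty} => S w.1 k) φ
      (fun w => r / T w) (K := π * κ) (c0 := c0) (lo := a - 1) (hi := c + 1) (by positivity) hc0p
      ?_ ?_ ?_
    · exact h
    · intro w ψ hψ
      obtain ⟨f1, f2, f3⟩ := hψ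
      obtain ⟨g1, g2, g3⟩ := hφ w
      have h1 : |ψ - φ w| ≤ π * (κ * r / T w) := by
        refine angle_close (D := uf p w.1 (p k) - p j) (e := d / 2) ?_ (by rw [← hoff]; exact f3)
          (by rw [← hoff]; exact g3) (hfar w.1 ψ w.2.1 ⟨f1, f2, f3⟩).1
          (hfar w.1 (φ w) w.2.1 (hφ w)).1 (by linarith)
        have h2 := hC.lt
        rw [abs_lt]
        constructor <;> linarith [f1.1, f1.2, g1.1, g1.2]
      have e : π * (κ * r / T w) = π * κ * (r / T w) := by ring
      rw [e] at h1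
      have h2 := abs_le.1 h1
      exact ⟨by linarith [h2.1], by linarith [h2.2]⟩
    · intro w ψ hψ
      obtain ⟨g1, -⟩ := hφ w
      have h1 : c0 * (r / T w) ≤ 1 := by
        have h2 : r / T w ≤ 1 := by
          rw [div_le_one (hTp w)]
          linarith [hT0 w]
        have h3 : 0 ≤ r / T w := by
          have := hTp w
          positivity
        calc c0 * (r / T w) ≤ 1 * 1 := mul_le_mul (by linarith) h2 h3 (by norm_num)
          _ = 1 := by norm_num
      exact ⟨by linarith [hψ.1, g1.1], by linarith [hψ.2, g1.2]⟩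
    · intro w w' hww
      rw [Set.disjoint_left]
      intro ψ h1 h2
      obtain ⟨f1, f2⟩ := hsmall w ψ h1
      obtain ⟨g1, g2⟩ := hsmall w' ψ h2
      exact hww (Subtype.ext (word_uniq hp w.2.1 w'.2.1 f1 g1 f2 g2))
  have hsub : (⋃ w ∈ {w : List (Fin (n + 3)) | w ≠ []}, ⋃ k : Fin (n + 3), S w k) ⊆
      ⋃ k : Fin (n + 3), ⋃ w : {w : List (Fin (n + 3)) // w ≠ [] ∧ (S w k).Nonempty}, S w.1 k := by
    intro ψ hψ
    simp only [mem_iUnion] at hψ ⊢
    obtain ⟨w, hw, k, h⟩ := hψ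
    exact ⟨k, ⟨w, hw, ψ, h⟩, h⟩
  calc volume (⋃ w ∈ {w : List (Fin (n + 3)) | w ≠ []}, ⋃ k : Fin (n + 3), S w k)
      ≤ volume (⋃ k : Fin (n + 3),
        ⋃ w : {w : List (Fin (n + 3)) // w ≠ [] ∧ (S w k).Nonempty}, S w.1 k) := measure_mono hsub
    _ ≤ ∑ k : Fin (n + 3),
        volume (⋃ w : {w : List (Fin (n + 3)) // w ≠ [] ∧ (S w k).Nonempty}, S w.1 k) :=
      measure_iUnion_fintype_le _ _
    _ ≤ ∑ k : Fin (n + 3), ENNReal.ofReal (π * κ / c0 * ((c + 1) - (a - 1))) :=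
      Finset.sum_le_sum fun k _ => hk k
    _ = ENNReal.ofReal ((n + 3 : ℕ) * (π / c0 * (c - a + 2)) * κ) := by
      rw [Finset.sum_const, Finset.card_univ, Fintype.card_fin, nsmul_eq_mul,
        ← ENNReal.ofReal_natCast, ← ENNReal.ofReal_mul (by positivity)]
      congr 1
      ring

end Pool.Agent.Zk99.RF
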