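import Pool.Agent.Zk43.CovB

/-!
Module B3: coverings of the points with few bad times in a box of multipliers `p ^ i * q ^ j`.
-/

set_option autoImplicit false

namespace Pool.Agent.Zk99.CovBox

open Pool.Agent.Zk43

theorem cmono {c c' : ℕ} {l l' : ℝ} {S S' : Set UnitAddCircle} (h : Cov c l S) (hc : c ≤ c')
    (hl : l ≤ l') (hS : S' ⊆ S) : Cov c' l' S' := by
  obtain ⟨f, h1, h2⟩ := h
  refine ⟨fun i => if h : (i : ℕ) < c then f ⟨i, h⟩ else ∅, ?_, ?_⟩
  · intro x hx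
    obtain ⟨i, hi⟩ := Set.mem_iUnion.1 (h1 (hS hx))
    refine Set.mem_iUnion.2 ⟨⟨i, i.2.trans_le hc⟩, ?_⟩
    simp only [i.2, dif_pos]
    exact hi
  · intro i x hx y hy
    by_cases h : (i : ℕ) < c
    · simp only [h, dif_pos] at hx hy
      exact (h2 _ x hx y hy).trans hl
    · simp only [h, dif_neg, not_false_eq_true] at hx
      exact hx.elim

theorem cunion {n c : ℕ} {l : ℝ} {S : Fin n → Set UnitAddCircle} (h : ∀ i, Cov c l (S i)) :
    Cov (n * c) l (⋃ i, S i) := by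
  choose f h1 h2 using h
  refine ⟨fun k => f (finProdFinEquiv.symm k).1 (finProdFinEquiv.symm k).2, ?_, ?_⟩
  · intro x hx
    obtain ⟨i, hi⟩ := Set.mem_iUnion.1 hx
    obtain ⟨j, hj⟩ := Set.mem_iUnion.1 (h1 i hi)
    refine Set.mem_iUnion.2 ⟨finProdFinEquiv (i, j), ?_⟩
    rw [Equiv.symm_apply_apply]
    exact hj
  · intro k x hx y hy
    exact h2 _ _ x hx y hy

open Classical in
/-- one of the classes has few bad points -/
theorem exists_class {A : Set UnitAddCircle} {p q l N b : ℕ} {η : ℝ} (hl : 1 ≤ l) (hN : 1 ≤ N)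
    (hb : η * (N : ℝ) ^ 2 ≤ l * b) {x : UnitAddCircle}
    (hx : (((Finset.range (N ^ 2) ×ˢ Finset.range N).filter
      fun u : ℕ × ℕ => (p ^ u.1 * q ^ u.2) • x ∉ A).card : ℝ) ≤ η * (N : ℝ) ^ 3) :
    ∃ j < N, ∃ r < l, ((Finset.range (N ^ 2 / l)).filter
      fun t => (p ^ l) ^ t • ((p ^ r * q ^ j) • x) ∉ A).card ≤ b := by
  by_contra hcon
  push Not at hcon
  set T := N ^ 2 / l with hT
  let B : Finset (ℕ × ℕ) := (Finset.range (N ^ 2) ×ˢ Finset.range N).filter
      fun u : ℕ × ℕ => (p ^ u.1 * q ^ u.2) • x ∉ A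
  let D : ℕ × ℕ → Finset ℕ := fun v => (Finset.range T).filter
      fun t => (p ^ l) ^ t • ((p ^ v.2 * q ^ v.1) • x) ∉ A
  -- the bad points of the classes are different bad points of the box
  have h1 : ∑ v ∈ Finset.range N ×ˢ Finset.range l, (D v).card ≤ B.card := by
    rw [← Finset.card_sigma]
    refine Finset.card_le_card_of_injOn (fun s => (s.1.2 + l * s.2, s.1.1)) ?_ ?_
    · rintro ⟨⟨j, r⟩, t⟩ hs
      simp only [Finset.coe_sigma, Set.mem_sigma_iff, Finset.mem_coe, Finset.mem_product,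
        Finset.mem_range, D, Finset.mem_filter] at hs
      obtain ⟨⟨hj, hr⟩, ht, hbad⟩ := hs
      simp only [B, Finset.coe_filter, Finset.mem_product, Finset.mem_range, Set.mem_ofPred_eq]
      refine ⟨⟨?_, hj⟩, ?_⟩
      · have h2 : l * T ≤ N ^ 2 := Nat.mul_div_le _ _
        calc r + l * t < l + l * t := by omega
          _ = l * (t + 1) := by ring
          _ ≤ l * T := Nat.mul_le_mul_left _ ht
          _ ≤ N ^ 2 := h2
      · have h3 : (p ^ (r + l * t) * q ^ j) • x = (p ^ l) ^ t • ((p ^ r * q ^ j) • x) := by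
          rw [← mul_nsmul']
          congr 1
          rw [pow_add, pow_mul]
          ring
        rw [h3]
        exact hbad
    · rintro ⟨⟨j, r⟩, t⟩ hs ⟨⟨j', r'⟩, t'⟩ hs' heq
      simp only [Finset.coe_sigma, Set.mem_sigma_iff, Finset.mem_coe, Finset.mem_product,
        Finset.mem_range, D, Finset.mem_filter] at hs hs'
      simp only [Prod.mk.injEq] at heq
      obtain ⟨h4, rfl⟩ := heq
      have hr := hs.1.2
      have hr' := hs'.1.2
      have h5 : r = r' := by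
        have e1 : (r + l * t) % l = r := by rw [Nat.add_mul_mod_self_left, Nat.mod_eq_of_lt hr]
        have e2 : (r' + l * t') % l = r' := by
          rw [Nat.add_mul_mod_self_left, Nat.mod_eq_of_lt hr']
        rw [← e1, ← e2, h4]
      subst h5
      have h6 : t = t' := by
        have : l * t = l * t' := by omega
        exact Nat.eq_of_mul_eq_mul_left (by omega) this
      subst h6
      rfl
  have h2 : (N * l) * (b + 1) ≤ B.card := by
    refine le_trans ?_ h1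
    calc (N * l) * (b + 1) = ∑ _v ∈ Finset.range N ×ˢ Finset.range l, (b + 1) := by
          rw [Finset.sum_const, Finset.card_product, Finset.card_range, Finset.card_range,
            smul_eq_mul]
      _ ≤ _ := by
          refine Finset.sum_le_sum fun v hv => ?_
          rw [Finset.mem_product, Finset.mem_range, Finset.mem_range] at hv
          exact hcon v.1 hv.1 v.2 hv.2
  have h3 : ((N * l : ℕ) : ℝ) * (b + 1) ≤ η * (N : ℝ) ^ 3 := by
    refine le_trans ?_ hx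
    exact_mod_cast h2
  have hN0 : (1 : ℝ) ≤ N := by exact_mod_cast hN
  have hl0 : (1 : ℝ) ≤ l := by exact_mod_cast hl
  have h4 : (N : ℝ) * (η * (N : ℝ) ^ 2) ≤ (N : ℝ) * ((l : ℝ) * (b : ℝ)) :=
    mul_le_mul_of_nonneg_left hb (by linarith)
  have h5 : (0 : ℝ) < (N : ℝ) * l := by positivity
  have h6 : η * (N : ℝ) ^ 3 = (N : ℝ) * (η * (N : ℝ) ^ 2) := by ring
  rw [h6] at h3
  push_cast at h3
  nlinarith

open Classical in
theorem cov_box {K p q l : ℕ} {A : Set UnitAddCircle} (hp : 1 ≤ p) (hq : 1 ≤ q) (hl : 1 ≤ l)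
    (hA : Cov K (1 / (2 * (p ^ l : ℕ))) A) {N : ℕ} (hN : 1 ≤ N) (b : ℕ) {η : ℝ}
    (hb : η * (N : ℝ) ^ 2 ≤ l * b) :
    Cov (N * l * (2 * (p ^ l * q ^ N)) * ((K + 1) ^ (N ^ 2 / l) * (2 * p ^ l) ^ b))
      ((1 / ((p ^ l : ℕ) : ℝ)) ^ (N ^ 2 / l))
      {x | (((Finset.range (N ^ 2) ×ˢ Finset.range N).filter
        fun u : ℕ × ℕ => (p ^ u.1 * q ^ u.2) • x ∉ A).card : ℝ) ≤ η * (N : ℝ) ^ 3} := by
  set T := N ^ 2 / l with hT
  have hm : 1 ≤ p ^ l := Nat.one_le_pow _ _ hp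
  have hY := cov_block hm hA T b
  set Y : Set UnitAddCircle :=
    {y | ((Finset.range T).filter fun t => (p ^ l) ^ t • y ∉ A).card ≤ b} with hYdef
  set c := (K + 1) ^ T * (2 * p ^ l) ^ b
  have hlen : (0 : ℝ) ≤ (1 / ((p ^ l : ℕ) : ℝ)) ^ T := by positivity
  -- the preimages
  have hpre : ∀ j < N, ∀ r < l, Cov (2 * (p ^ l * q ^ N) * c) ((1 / ((p ^ l : ℕ) : ℝ)) ^ T)
      {x | (p ^ r * q ^ j) • x ∈ Y} := by
    intro j hj r hr
    have hM : 1 ≤ p ^ r * q ^ j := Nat.mul_pos (Nat.pow_pos hp) (Nat.pow_pos hq)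
    have h1 := Cov.pull hM (cov_univ hM) hY
    refine cmono h1 ?_ ?_ ?_
    · refine Nat.mul_le_mul_right _ (Nat.mul_le_mul_left _ (Nat.mul_le_mul ?_ ?_))
      · exact Nat.pow_le_pow_right hp hr.le
      · exact Nat.pow_le_pow_right hq hj.le
    · exact div_le_self hlen (by exact_mod_cast hM)
    · intro x hx
      exact ⟨Set.mem_univ _, hx⟩
  have hU : Cov (N * l * (2 * (p ^ l * q ^ N) * c)) ((1 / ((p ^ l : ℕ) : ℝ)) ^ T)
      (⋃ i : Fin (N * l), {x | (p ^ ((finProdFinEquiv.symm i).2 : ℕ) *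
        q ^ ((finProdFinEquiv.symm i).1 : ℕ)) • x ∈ Y}) :=
    cunion fun i => hpre _ (finProdFinEquiv.symm i).1.2 _ (finProdFinEquiv.symm i).2.2
  refine cmono hU (le_of_eq (by ring)) le_rfl ?_
  intro x hx
  obtain ⟨j, hj, r, hr, h⟩ := exists_class hl hN hb hx
  refine Set.mem_iUnion.2 ⟨finProdFinEquiv (⟨j, hj⟩, ⟨r, hr⟩), ?_⟩
  simp only [Equiv.symm_apply_apply, Set.mem_ofPred_eq]
  exact h

end Pool.Agent.Zk99.CovBox
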