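import Mathlib

/-! Module for helper41: the sum of `gcd (u, v) / (u v)`. -/

set_option autoImplicit false

namespace Pool.Agent.Zk99

open Finset

lemma harm_le (X : ℕ) : ∑ u ∈ Icc 1 X, (1 : ℝ) / (u : ℝ) ≤ 1 + Real.log X := by
  have h := harmonic_le_one_add_log X
  rw [harmonic_eq_sum_Icc] at h
  push_cast at h
  simpa [one_div] using h

lemma class_le (X g : ℕ) (hg : 1 ≤ g) :
    ∑ u ∈ Icc 1 X, (if g ∣ u then (1 : ℝ) / (u : ℝ) else 0) ≤
      1 / (g : ℝ) * ∑ u ∈ Icc 1 X, (1 : ℝ) / (u : ℝ) := by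
  rw [← sum_filter]
  have h1 : (Icc 1 X).filter (fun u => g ∣ u) ⊆ (Icc 1 X).image (fun u => g * u) := by
    intro u hu
    rw [mem_filter, mem_Icc] at hu
    obtain ⟨⟨h2, h3⟩, k, rfl⟩ := hu
    rw [mem_image]
    refine ⟨k, mem_Icc.2 ⟨?_, ?_⟩, rfl⟩
    · exact Nat.pos_of_ne_zero (by rintro rfl; simp at h2)
    · exact (Nat.le_mul_of_pos_left k hg).trans h3
  refine (sum_le_sum_of_subset_of_nonneg h1 fun u _ _ => by positivity).trans ?_
  rw [sum_image (fun a _ b _ h => Nat.eq_of_mul_eq_mul_left hg h), mul_sum]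
  refine le_of_eq (sum_congr rfl fun u _ => ?_)
  push_cast
  rw [one_div_mul_one_div]

theorem gcd_sum (X : ℕ) (hX : 1 ≤ X) :
    ∑ u ∈ Finset.Icc 1 X, ∑ v ∈ Finset.Icc 1 X, ((Nat.gcd u v : ℕ) : ℝ) / ((u : ℝ) * v) ≤
      (1 + Real.log X) ^ 3 := by
  set S : ℕ → ℝ := fun g => ∑ u ∈ Icc 1 X, (if g ∣ u then (1 : ℝ) / (u : ℝ) else 0) with hS
  set H : ℝ := ∑ u ∈ Icc 1 X, (1 : ℝ) / (u : ℝ) with hH
  have hH0 : 0 ≤ H := sum_nonneg fun u _ => by positivity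
  have hS0 : ∀ g, 0 ≤ S g := fun g => sum_nonneg fun u _ => by
    split_ifs
    · positivity
    · exact le_rfl
  have h1 : ∀ u ∈ Icc 1 X, ∀ v ∈ Icc 1 X, ((Nat.gcd u v : ℕ) : ℝ) / ((u : ℝ) * v) ≤
      ∑ g ∈ Icc 1 X, (g : ℝ) * ((if g ∣ u then (1 : ℝ) / (u : ℝ) else 0) *
        (if g ∣ v then (1 : ℝ) / (v : ℝ) else 0)) := by
    intro u hu v hv
    rw [mem_Icc] at hu hv
    have hmem : Nat.gcd u v ∈ Icc 1 X := mem_Icc.2 ⟨Nat.gcd_pos_of_pos_left v hu.1,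
      (Nat.gcd_le_left v hu.1).trans hu.2⟩
    have h2 := single_le_sum (f := fun g : ℕ => (g : ℝ) * ((if g ∣ u then (1 : ℝ) / (u : ℝ) else 0) *
        (if g ∣ v then (1 : ℝ) / (v : ℝ) else 0))) (s := Icc 1 X) (fun g _ => by
          refine mul_nonneg (Nat.cast_nonneg _) (mul_nonneg ?_ ?_) <;> split_ifs <;> positivity) hmem
    refine le_trans (le_of_eq ?_) h2
    rw [if_pos (Nat.gcd_dvd_left u v), if_pos (Nat.gcd_dvd_right u v), one_div_mul_one_div]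
    ring
  calc ∑ u ∈ Icc 1 X, ∑ v ∈ Icc 1 X, ((Nat.gcd u v : ℕ) : ℝ) / ((u : ℝ) * v)
      ≤ ∑ u ∈ Icc 1 X, ∑ v ∈ Icc 1 X, ∑ g ∈ Icc 1 X,
        (g : ℝ) * ((if g ∣ u then (1 : ℝ) / (u : ℝ) else 0) *
        (if g ∣ v then (1 : ℝ) / (v : ℝ) else 0)) :=
        sum_le_sum fun u hu => sum_le_sum fun v hv => h1 u hu v hv
    _ = ∑ g ∈ Icc 1 X, (g : ℝ) * (S g * S g) := by
        have e1 : ∀ u : ℕ, ∑ v ∈ Icc 1 X, ∑ g ∈ Icc 1 X,
            (g : ℝ) * ((if g ∣ u then (1 : ℝ) / (u : ℝ) else 0) *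
            (if g ∣ v then (1 : ℝ) / (v : ℝ) else 0)) =
            ∑ g ∈ Icc 1 X, (g : ℝ) * ((if g ∣ u then (1 : ℝ) / (u : ℝ) else 0) * S g) := by
          intro u
          rw [sum_comm]
          refine sum_congr rfl fun g _ => ?_
          rw [← mul_sum, ← mul_sum]
        rw [sum_congr rfl fun u _ => e1 u, sum_comm]
        refine sum_congr rfl fun g _ => ?_
        rw [← mul_sum, ← sum_mul]
    _ ≤ ∑ g ∈ Icc 1 X, (1 : ℝ) / (g : ℝ) * H ^ 2 := by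
        refine sum_le_sum fun g hg => ?_
        have hg1 : 1 ≤ g := (mem_Icc.1 hg).1
        have hg0 : (0 : ℝ) < g := by exact_mod_cast hg1
        have h3 : S g ≤ 1 / (g : ℝ) * H := class_le X g hg1
        have h4 : S g * S g ≤ (1 / (g : ℝ) * H) * (1 / (g : ℝ) * H) :=
          mul_le_mul h3 h3 (hS0 g) (by positivity)
        calc (g : ℝ) * (S g * S g) ≤ g * ((1 / (g : ℝ) * H) * (1 / (g : ℝ) * H)) :=
              mul_le_mul_of_nonneg_left h4 hg0.le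
          _ = 1 / (g : ℝ) * H ^ 2 := by
              field_simp
    _ = H ^ 3 := by
        rw [← sum_mul, ← hH]
        ring
    _ ≤ (1 + Real.log X) ^ 3 := pow_le_pow_left₀ hH0 (harm_le X) 3

end Pool.Agent.Zk99
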